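import Pool.Agent.Q224.OM.Walk

/-!
# Shortest walks by iterated relaxation
-/

set_option autoImplicit false

namespace Q224.OM

/-- Candidates for the distance of `v`. -/
def cands (D : List Arc) (T : List (ℕ × ℕ)) (v : ℕ) : List ℕ :=
  ((T.filter (fun e => decide (e.1 = v))).map (fun e => e.2)) ++
  (D.filter (fun a => decide (hd a = v))).flatMap (fun a =>
    (T.filter (fun e => decide (e.1 = tl a))).map (fun e => e.2 + wt a))

/-- The least element (as a list of length at most one). -/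
def mins (l : List ℕ) : List ℕ :=
  ((l.filter (fun c => l.all (fun d => decide (c ≤ d)))).head?).elim [] (fun c => [c])

/-- One round of relaxation. -/
def relax (D : List Arc) (Vs : List ℕ) (T : List (ℕ × ℕ)) : List (ℕ × ℕ) :=
  Vs.flatMap (fun v => (mins (cands D T v)).map (fun c => (v, c)))

/-- The table of the distances from `x`. -/
def bf (D : List Arc) (x : ℕ) : List (ℕ × ℕ) :=
  D.foldl (fun T _ => relax D (x :: D.map hd) T) [(x, 0)]

/-- Reachability by computation. -/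
def reach (D : List Arc) (x y : ℕ) : Bool := (bf D x).any (fun e => decide (e.1 = y))

theorem mem_mins {l : List ℕ} {c : ℕ} : c ∈ mins l ↔ c ∈ l ∧ ∀ d ∈ l, c ≤ d := by
  have hf : ∀ d, d ∈ l.filter (fun c => l.all (fun d => decide (c ≤ d))) ↔
      d ∈ l ∧ ∀ e ∈ l, d ≤ e := by
    intro d
    rw [List.mem_filter, List.all_eq_true]
    simp only [decide_eq_true_eq]
  unfold mins
  rcases hh : (l.filter (fun c => l.all (fun d => decide (c ≤ d)))).head? with _ | d
  · rw [List.head?_eq_none_iff] at hh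
    rw [← hf c, hh]
    simp
  · have h1 := (hf d).1 (List.mem_of_mem_head? hh)
    simp only [Option.elim, List.mem_singleton]
    constructor
    · rintro rfl; exact h1
    · intro h
      exact le_antisymm (h.2 d h1.1) (h1.2 c h.1)

theorem mem_cands {D : List Arc} {T : List (ℕ × ℕ)} {v n : ℕ} : n ∈ cands D T v ↔
    (v, n) ∈ T ∨ ∃ a ∈ D, hd a = v ∧ ∃ m, (tl a, m) ∈ T ∧ n = m + wt a := by
  unfold cands
  rw [List.mem_append, List.mem_map, List.mem_flatMap]
  constructor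
  · rintro (⟨⟨u, m⟩, h, rfl⟩ | ⟨a, ha, h⟩)
    · rw [List.mem_filter, decide_eq_true_eq] at h
      obtain ⟨h1, h2⟩ := h
      simp only at h2
      subst h2
      exact Or.inl h1
    · rw [List.mem_filter, decide_eq_true_eq] at ha
      rw [List.mem_map] at h
      obtain ⟨⟨u, m⟩, h, rfl⟩ := h
      rw [List.mem_filter, decide_eq_true_eq] at h
      obtain ⟨h1, h2⟩ := h
      simp only at h2
      subst h2
      exact Or.inr ⟨a, ha.1, ha.2, m, h1, rfl⟩
  · rintro (h | ⟨a, ha, h1, m, h2, rfl⟩)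
    · exact Or.inl ⟨(v, n), List.mem_filter.2 ⟨h, by simp⟩, rfl⟩
    · exact Or.inr ⟨a, List.mem_filter.2 ⟨ha, by simpa using h1⟩, List.mem_map.2
        ⟨(tl a, m), List.mem_filter.2 ⟨h2, by simp⟩, rfl⟩⟩

/-- Lengths of the walks with at most `k` arcs. -/
def Ls (D : List Arc) (x v k : ℕ) : Set ℕ :=
  {n | ∃ l, Wk x l v ∧ (∀ a ∈ l, a ∈ D) ∧ l.length ≤ k ∧ n = wl l}

theorem ls_succ {D : List Arc} {x v k n : ℕ} : n ∈ Ls D x v (k + 1) ↔
    n ∈ Ls D x v k ∨ ∃ a ∈ D, hd a = v ∧ ∃ m ∈ Ls D x (tl a) k, n = m + wt a := by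
  constructor
  · rintro ⟨l, h1, h2, h3, rfl⟩
    rcases List.eq_nil_or_concat l with rfl | ⟨m, a, rfl⟩
    · exact Or.inl ⟨[], h1, h2, by simp, rfl⟩
    · right
      rw [List.concat_eq_append] at h1 h2 h3 ⊢
      rw [wk_mid] at h1
      refine ⟨a, h2 a (by simp), h1.2, wl m, ⟨m, h1.1, fun b hb => h2 b (by simp [hb]), ?_, rfl⟩, ?_⟩
      · simp only [List.length_append, List.length_cons, List.length_nil] at h3; omega
      · rw [wl_append, wl_cons]; simp [wl]
  · rintro (⟨l, h1, h2, h3, rfl⟩ | ⟨a, ha, rfl, m, ⟨l, h1, h2, h3, rfl⟩, rfl⟩)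
    · exact ⟨l, h1, h2, by omega, rfl⟩
    · refine ⟨l ++ [a], wk_mid.2 ⟨h1, rfl⟩, ?_, by simp; omega, ?_⟩
      · intro b hb
        rw [List.mem_append, List.mem_singleton] at hb
        rcases hb with hb | rfl
        · exact h2 b hb
        · exact ha
      · rw [wl_append, wl_cons]; simp [wl]

theorem ls_vs {D : List Arc} {x v k n : ℕ} (h : n ∈ Ls D x v k) : v ∈ x :: D.map hd := by
  obtain ⟨l, h1, h2, h3, rfl⟩ := h
  rcases List.eq_nil_or_concat l with rfl | ⟨m, a, rfl⟩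
  · simp only [Wk] at h1
    rw [h1]; exact List.mem_cons_self
  · rw [List.concat_eq_append] at h1 h2
    rw [wk_mid] at h1
    have h4 : hd a = v := h1.2
    rw [← h4]
    exact List.mem_cons_of_mem _ (List.mem_map.2 ⟨a, h2 a (by simp), rfl⟩)

theorem relax_spec {D : List Arc} {x k : ℕ} {T : List (ℕ × ℕ)}
    (hT : ∀ v c, (v, c) ∈ T ↔ IsLeast (Ls D x v k) c) (v c : ℕ) :
    (v, c) ∈ relax D (x :: D.map hd) T ↔ IsLeast (Ls D x v (k + 1)) c := by
  have hmem : (v, c) ∈ relax D (x :: D.map hd) T ↔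
      v ∈ x :: D.map hd ∧ c ∈ cands D T v ∧ ∀ d ∈ cands D T v, c ≤ d := by
    unfold relax
    rw [List.mem_flatMap]
    constructor
    · rintro ⟨u, hu, h⟩
      rw [List.mem_map] at h
      obtain ⟨d, hd, he⟩ := h
      rw [Prod.mk.injEq] at he
      obtain ⟨rfl, rfl⟩ := he
      exact ⟨hu, mem_mins.1 hd⟩
    · rintro ⟨hu, h⟩
      exact ⟨v, hu, List.mem_map.2 ⟨c, mem_mins.2 h, rfl⟩⟩
  rw [hmem]
  -- candidates are lengths
  have hsub : ∀ n ∈ cands D T v, n ∈ Ls D x v (k + 1) := by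
    intro n hn
    rw [ls_succ]
    rcases mem_cands.1 hn with h | ⟨a, ha, h1, m, h2, rfl⟩
    · exact Or.inl ((hT _ _).1 h).1
    · exact Or.inr ⟨a, ha, h1, m, ((hT _ _).1 h2).1, rfl⟩
  -- every length is at least a candidate
  have hge : ∀ n ∈ Ls D x v (k + 1), ∃ m ∈ cands D T v, m ≤ n := by
    intro n hn
    rcases ls_succ.1 hn with h | ⟨a, ha, h1, m, h2, rfl⟩
    · have hne : (Ls D x v k).Nonempty := ⟨n, h⟩
      refine ⟨sInf (Ls D x v k), mem_cands.2 (Or.inl ((hT _ _).2 ⟨Nat.sInf_mem hne,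
        fun _ h => Nat.sInf_le h⟩)), Nat.sInf_le h⟩
    · have hne : (Ls D x (tl a) k).Nonempty := ⟨m, h2⟩
      refine ⟨sInf (Ls D x (tl a) k) + wt a, mem_cands.2 (Or.inr ⟨a, ha, h1, _,
        (hT _ _).2 ⟨Nat.sInf_mem hne, fun _ h => Nat.sInf_le h⟩, rfl⟩), ?_⟩
      have := Nat.sInf_le h2
      omega
  constructor
  · rintro ⟨_, h1, h2⟩
    refine ⟨hsub c h1, fun n hn => ?_⟩
    obtain ⟨m, hm, hmn⟩ := hge n hn
    exact (h2 m hm).trans hmn
  · intro h
    obtain ⟨m, hm, hmc⟩ := hge c h.1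
    have hcm : c ≤ m := h.2 (hsub m hm)
    have : c = m := by omega
    subst this
    exact ⟨ls_vs h.1, hm, fun d hd => h.2 (hsub d hd)⟩

theorem foldl_iter' {σ β : Type} (F : σ → σ) (l : List β) (s : σ) :
    l.foldl (fun A _ => F A) s = F^[l.length] s := by
  induction l generalizing s with
  | nil => rfl
  | cons a l ih => rw [List.foldl_cons, ih, List.length_cons, Function.iterate_succ_apply]

theorem iter_spec (D : List Arc) (x k : ℕ) (v c : ℕ) :
    (v, c) ∈ (relax D (x :: D.map hd))^[k] [(x, 0)] ↔ IsLeast (Ls D x v k) c := by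
  induction k generalizing v c with
  | zero =>
    rw [Function.iterate_zero, id, List.mem_singleton, Prod.mk.injEq]
    constructor
    · rintro ⟨rfl, rfl⟩
      exact ⟨⟨[], rfl, by simp, by simp, rfl⟩, fun _ _ => Nat.zero_le _⟩
    · rintro ⟨⟨l, h1, h2, h3, rfl⟩, _⟩
      have : l = [] := List.length_eq_zero_iff.1 (by omega)
      subst this
      exact ⟨h1.symm, rfl⟩
  | succ k ih =>
    rw [Function.iterate_succ_apply']
    exact relax_spec ih v c

/-- Lengths of all walks. -/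
def La (D : Set Arc) (x v : ℕ) : Set ℕ := {n | ∃ l, Wk x l v ∧ (∀ a ∈ l, a ∈ D) ∧ n = wl l}

theorem least_iff {D : List Arc} {x v c : ℕ} :
    IsLeast (Ls D x v D.length) c ↔ IsLeast (La {a | a ∈ D} x v) c := by
  have hsub : ∀ n ∈ Ls D x v D.length, n ∈ La {a | a ∈ D} x v := by
    rintro n ⟨l, h1, h2, _, rfl⟩
    exact ⟨l, h1, h2, rfl⟩
  have hge : ∀ n ∈ La {a | a ∈ D} x v, ∃ m ∈ Ls D x v D.length, m ≤ n := by
    rintro n ⟨l, h1, h2, rfl⟩
    obtain ⟨l', h3, h4, h5, h6⟩ := short _ l x v rfl h1 h2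
    exact ⟨wl l', ⟨l', h3, h4, h5, rfl⟩, h6⟩
  constructor
  · intro h
    refine ⟨hsub c h.1, fun n hn => ?_⟩
    obtain ⟨m, hm, hmn⟩ := hge n hn
    exact (h.2 hm).trans hmn
  · intro h
    obtain ⟨m, hm, hmc⟩ := hge c h.1
    have hcm : c ≤ m := h.2 (hsub m hm)
    have : c = m := by omega
    subst this
    exact ⟨hm, fun d hd => h.2 (hsub d hd)⟩

/-- **The table is the table of the distances.** -/
theorem mem_bf {D : List Arc} {x v c : ℕ} :
    (v, c) ∈ bf D x ↔ IsLeast (La {a | a ∈ D} x v) c := by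
  unfold bf
  rw [foldl_iter' (relax D (x :: D.map hd)), iter_spec, least_iff]

theorem reach_iff {D : List Arc} {x y : ℕ} : reach D x y = true ↔ Rch {a | a ∈ D} x y := by
  unfold reach
  rw [List.any_eq_true]
  constructor
  · rintro ⟨⟨v, c⟩, h, he⟩
    rw [decide_eq_true_eq] at he
    simp only at he
    subst he
    obtain ⟨l, h1, h2, _⟩ := (mem_bf.1 h).1
    exact ⟨l, h1, h2⟩
  · rintro ⟨l, h1, h2⟩
    have hne : (La {a | a ∈ D} x y).Nonempty := ⟨_, l, h1, h2, rfl⟩
    exact ⟨(y, sInf (La {a | a ∈ D} x y)), mem_bf.2 ⟨Nat.sInf_mem hne,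
      fun _ h => Nat.sInf_le h⟩, by simp⟩

/-- Values of the table. -/
theorem iter_bd (D : List Arc) (x k : ℕ) {v c : ℕ}
    (h : (v, c) ∈ (relax D (x :: D.map hd))^[k] [(x, 0)]) :
    v ∈ x :: D.map hd ∧ c ≤ k * (D.map wt).sum := by
  rw [iter_spec] at h
  refine ⟨ls_vs h.1, ?_⟩
  obtain ⟨l, _, h2, h3, rfl⟩ := h.1
  have h4 : ∀ l : List Arc, (∀ a ∈ l, a ∈ D) → wl l ≤ l.length * (D.map wt).sum := by
    intro l
    induction l with
    | nil => intro _; simp [wl]
    | cons a l ih =>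
      intro hl
      have h5 := ih (fun b hb => hl b (List.mem_cons_of_mem _ hb))
      have h6 : wt a ≤ (D.map wt).sum :=
        List.single_le_sum (by simp) _ (List.mem_map.2 ⟨a, hl a List.mem_cons_self, rfl⟩)
      rw [wl_cons, List.length_cons, Nat.add_mul, one_mul]
      omega
  exact (h4 l h2).trans (Nat.mul_le_mul_right _ h3)

end Q224.OM
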