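import Pool.Agent.Q224.OM.Pair

/-!
# Two shortest walks without conflict: the test
-/

set_option autoImplicit false

namespace Q224.OM

/-- Look up in a table. -/
def av (T : List (ℕ × ℕ)) (v : ℕ) : ℕ :=
  ((T.filter (fun e => decide (e.1 = v))).head?.map (fun e => e.2)).getD 0

/-- Arcs whose tail is in the table. -/
def dr (D : List Arc) (T : List (ℕ × ℕ)) : List Arc :=
  D.filter (fun g => T.any (fun e => decide (e.1 = tl g)))

/-- Tightness. -/
def tgB (T : List (ℕ × ℕ)) (g : Arc) : Bool := decide (av T (hd g) = av T (tl g) + wt g)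

/-- Arcs which are tight for both tables. -/
def l0 (D : List Arc) (Ta Tb : List (ℕ × ℕ)) : List Arc := D.filter (fun g => tgB Ta g && tgB Tb g)

/-- Arcs which are tight for the first table only. -/
def lp (D : List Arc) (Ta Tb : List (ℕ × ℕ)) : List Arc := D.filter (fun g => tgB Ta g && !tgB Tb g)

/-- Conflict. -/
def cfB (a b : Arc) : Bool := decide (a.1.1 = b.1.1) && !decide (a.1.2 = b.1.2)

/-- Two walks without conflict exist. -/
def nnB (E : List Arc) (x1 x2 y1 y2 : ℕ) : Bool :=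
  reach E x1 x2 && reach E y1 y2 && E.all (fun a => E.all (fun b => !cfB a b ||
    (reach (E.filter (fun c => !decide (c = a))) x1 x2 ||
      reach (E.filter (fun c => !decide (c = b))) y1 y2)))

/-- Comparison of levels. -/
def ltB (Ta Tb : List (ℕ × ℕ)) (x y : ℕ) : Bool :=
  decide (av Tb x + av Ta y < av Tb y + av Ta x)

/-- Arcs of the pair graph. -/
def mk (x y x' y' : ℕ) : Arc := ((0, true), Nat.pair x y, Nat.pair x' y', 0)

/-- The moves from `(x, y)`. -/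
def mvs (Ta Tb : List (ℕ × ℕ)) (E P Q : List Arc) (x y : ℕ) : List Arc :=
  if ltB Ta Tb y x = true then
    (P.filter (fun e => reach E x (tl e))).map (fun e => mk x y (hd e) y)
  else if ltB Ta Tb x y = true then
    (Q.filter (fun f => reach E (hd f) y)).map (fun f => mk x y x (tl f))
  else P.flatMap (fun e => (Q.filter (fun f => !cfB e f && nnB E x (tl e) (hd f) y)).map
    (fun f => mk x y (hd e) (tl f)))

/-- The pair graph. -/
def moves (V : List ℕ) (Ta Tb : List (ℕ × ℕ)) (E P Q : List Arc) : List Arc :=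
  V.flatMap (fun x => V.flatMap (fun y => mvs Ta Tb E P Q x y))

/-- The test for the pair graph. -/
def accept (V : List ℕ) (Ta Tb : List (ℕ × ℕ)) (E P Q : List Arc) (s t : ℕ) : Bool :=
  V.any (fun x => V.any (fun y => !ltB Ta Tb x t && !ltB Ta Tb t x && !ltB Ta Tb y t &&
    !ltB Ta Tb t y && nnB E x t t y && reach (moves V Ta Tb E P Q) (Nat.pair s s) (Nat.pair x y)))

/-- **The test.** -/
def test (D : List Arc) (s t : ℕ) : Bool :=
  !reach D s t || !reach D t s ||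
    accept (s :: (D.map hd ++ D.map tl)) (bf D s) (bf D t) (l0 (dr D (bf D s)) (bf D s) (bf D t))
      (lp (dr D (bf D s)) (bf D s) (bf D t)) (lp (dr D (bf D s)) (bf D t) (bf D s)) s t

theorem cfB_iff {a b : Arc} : cfB a b = true ↔ conf a b := by
  unfold cfB conf
  rw [Bool.and_eq_true, decide_eq_true_eq, Bool.not_eq_true', decide_eq_false_iff_not]

theorem nnB_iff {E : List Arc} (hE : WF {g | g ∈ E}) (x1 x2 y1 y2 : ℕ) :
    nnB E x1 x2 y1 y2 = true ↔ NN {g | g ∈ E} x1 x2 y1 y2 := by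
  have hset : ∀ a : Arc, {g | g ∈ E.filter (fun c => !decide (c = a))} = {g | g ∈ E} \ {a} := by
    intro a
    ext g
    rw [Set.mem_ofPred_eq, List.mem_filter, Bool.not_eq_true', decide_eq_false_iff_not]
    exact Iff.rfl
  rw [nn_iff hE]
  unfold nnB
  rw [Bool.and_eq_true, Bool.and_eq_true, reach_iff, reach_iff, and_assoc, List.all_eq_true]
  simp only [List.all_eq_true, Bool.or_eq_true, Bool.not_eq_true']
  refine and_congr Iff.rfl (and_congr Iff.rfl ?_)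
  constructor
  · intro h a ha b hb hab
    rcases h a ha b hb with h1 | h1 | h1
    · rw [← cfB_iff, h1] at hab; cases hab
    · rw [reach_iff, hset] at h1; exact Or.inl h1
    · rw [reach_iff, hset] at h1; exact Or.inr h1
  · intro h a ha b hb
    by_cases hab : conf a b
    · rcases h a ha b hb hab with h1 | h1
      · rw [← hset, ← reach_iff] at h1; exact Or.inr (Or.inl h1)
      · rw [← hset, ← reach_iff] at h1; exact Or.inr (Or.inr h1)
    · left
      rw [← Bool.not_eq_true, cfB_iff]; exact hab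

/-- The function of a table. -/
def fv (T : List (ℕ × ℕ)) (v : ℕ) : ℤ := (av T v : ℤ)

theorem ltB_iff {Ta Tb : List (ℕ × ℕ)} {x y : ℕ} : ltB Ta Tb x y = true ↔
    ps (fv Ta) (fv Tb) x < ps (fv Ta) (fv Tb) y := by
  unfold ltB ps fv
  rw [decide_eq_true_eq]
  omega

theorem tgB_iff {T : List (ℕ × ℕ)} {g : Arc} : tgB T g = true ↔ Tg (fv T) g := by
  unfold tgB Tg fv
  rw [decide_eq_true_eq]
  omega

section

variable {D : List Arc} {Ta Tb : List (ℕ × ℕ)}

theorem set_l0 : {g | g ∈ l0 D Ta Tb} = D0 {g | g ∈ D} (fv Ta) (fv Tb) := by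
  ext g
  unfold l0 D0
  rw [Set.mem_ofPred_eq, List.mem_filter, Bool.and_eq_true, tgB_iff, tgB_iff]
  exact Iff.rfl

theorem mem_lp {g : Arc} : g ∈ lp D Ta Tb ↔ g ∈ TP {g | g ∈ D} (fv Ta) (fv Tb) := by
  unfold lp TP
  rw [Set.mem_ofPred_eq, List.mem_filter, Bool.and_eq_true, tgB_iff, Bool.not_eq_true',
    ← Bool.not_eq_true, tgB_iff]
  exact Iff.rfl

theorem mem_lq {g : Arc} : g ∈ lp D Tb Ta ↔ g ∈ TQ {g | g ∈ D} (fv Ta) (fv Tb) := by
  rw [mem_lp]; exact Iff.rfl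

theorem mem_mvs (hD : WF {g | g ∈ D}) {x y : ℕ} {g : Arc} :
    g ∈ mvs Ta Tb (l0 D Ta Tb) (lp D Ta Tb) (lp D Tb Ta) x y ↔
      ∃ q : ℕ × ℕ, Mv {g | g ∈ D} (fv Ta) (fv Tb) (x, y) q ∧ g = mk x y q.1 q.2 := by
  have hE : WF {g | g ∈ l0 D Ta Tb} := hD.mono (fun g hg => (List.mem_filter.1 hg).1)
  unfold mvs
  by_cases h1 : ltB Ta Tb y x = true
  · rw [if_pos h1, List.mem_map]
    rw [ltB_iff] at h1
    constructor
    · rintro ⟨e, he, rfl⟩
      rw [List.mem_filter, reach_iff, mem_lp, set_l0] at he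
      exact ⟨(hd e, y), Or.inl ⟨h1, rfl, e, he.1, he.2, rfl⟩, rfl⟩
    · rintro ⟨⟨q1, q2⟩, h2, rfl⟩
      rcases h2 with ⟨_, h3, e, he, h4, h5⟩ | ⟨h3, _⟩ | ⟨h3, _⟩
      · simp only at h3 h4 h5
        subst h3 h5
        refine ⟨e, ?_, rfl⟩
        rw [List.mem_filter, reach_iff, mem_lp, set_l0]
        exact ⟨he, h4⟩
      · simp only at h3; omega
      · simp only at h3; omega
  · rw [if_neg h1]
    rw [ltB_iff] at h1
    by_cases h2 : ltB Ta Tb x y = true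
    · rw [if_pos h2, List.mem_map]
      rw [ltB_iff] at h2
      constructor
      · rintro ⟨f, hf, rfl⟩
        rw [List.mem_filter, reach_iff, mem_lq, set_l0] at hf
        exact ⟨(x, tl f), Or.inr (Or.inl ⟨h2, rfl, f, hf.1, hf.2, rfl⟩), rfl⟩
      · rintro ⟨⟨q1, q2⟩, h3, rfl⟩
        rcases h3 with ⟨h3, _⟩ | ⟨_, h3, f, hf, h4, h5⟩ | ⟨h3, _⟩
        · exact absurd h3 h1
        · simp only at h3 h4 h5
          subst h3 h5
          refine ⟨f, ?_, rfl⟩
          rw [List.mem_filter, reach_iff, mem_lq, set_l0]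
          exact ⟨hf, h4⟩
        · simp only at h3; omega
    · rw [if_neg h2, List.mem_flatMap]
      rw [ltB_iff] at h2
      constructor
      · rintro ⟨e, he, h3⟩
        rw [List.mem_map] at h3
        obtain ⟨f, hf, rfl⟩ := h3
        rw [List.mem_filter, Bool.and_eq_true, Bool.not_eq_true', ← Bool.not_eq_true, cfB_iff,
          nnB_iff hE, set_l0, mem_lq] at hf
        rw [mem_lp] at he
        exact ⟨(hd e, tl f), Or.inr (Or.inr ⟨by simp only; omega, e, he, f, hf.1, hf.2.1, hf.2.2,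
          rfl, rfl⟩), rfl⟩
      · rintro ⟨⟨q1, q2⟩, h3, rfl⟩
        rcases h3 with ⟨h3, _⟩ | ⟨h3, _⟩ | ⟨_, e, he, f, hf, h3, h4, h5, h6⟩
        · exact absurd h3 h1
        · exact absurd h3 h2
        · simp only at h4 h5 h6
          subst h5 h6
          refine ⟨e, mem_lp.2 he, List.mem_map.2 ⟨f, ?_, rfl⟩⟩
          rw [List.mem_filter, Bool.and_eq_true, Bool.not_eq_true', ← Bool.not_eq_true, cfB_iff,
            nnB_iff hE, set_l0, mem_lq]
          exact ⟨hf, h3, h4⟩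

theorem mv_mem {V : List ℕ} (hV : ∀ g ∈ D, hd g ∈ V ∧ tl g ∈ V) {p q : ℕ × ℕ}
    (hp : p.1 ∈ V ∧ p.2 ∈ V) (h : Mv {g | g ∈ D} (fv Ta) (fv Tb) p q) : q.1 ∈ V ∧ q.2 ∈ V := by
  rcases h with ⟨_, h2, e, he, _, h1⟩ | ⟨_, h1, f, hf, _, h2⟩ | ⟨_, e, he, f, hf, _, _, h1, h2⟩
  · rw [h1, h2]; exact ⟨(hV e he.1).1, hp.2⟩
  · rw [h1, h2]; exact ⟨hp.1, (hV f hf.1).2⟩
  · rw [h1, h2]; exact ⟨(hV e he.1).1, (hV f hf.1).2⟩

theorem mem_moves (hD : WF {g | g ∈ D}) {V : List ℕ} {g : Arc} :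
    g ∈ moves V Ta Tb (l0 D Ta Tb) (lp D Ta Tb) (lp D Tb Ta) ↔
      ∃ p q : ℕ × ℕ, p.1 ∈ V ∧ p.2 ∈ V ∧ Mv {g | g ∈ D} (fv Ta) (fv Tb) p q ∧
        g = mk p.1 p.2 q.1 q.2 := by
  unfold moves
  rw [List.mem_flatMap]
  constructor
  · rintro ⟨x, hx, h⟩
    rw [List.mem_flatMap] at h
    obtain ⟨y, hy, h⟩ := h
    obtain ⟨q, h1, h2⟩ := (mem_mvs hD).1 h
    exact ⟨(x, y), q, hx, hy, h1, h2⟩
  · rintro ⟨⟨x, y⟩, q, hx, hy, h1, h2⟩
    exact ⟨x, hx, List.mem_flatMap.2 ⟨y, hy, (mem_mvs hD).2 ⟨q, h1, h2⟩⟩⟩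

theorem reach_moves (hD : WF {g | g ∈ D}) {V : List ℕ} (hV : ∀ g ∈ D, hd g ∈ V ∧ tl g ∈ V)
    {s : ℕ} (hs : s ∈ V) (p : ℕ × ℕ) :
    reach (moves V Ta Tb (l0 D Ta Tb) (lp D Ta Tb) (lp D Tb Ta)) (Nat.pair s s)
      (Nat.pair p.1 p.2) = true ↔
      Relation.ReflTransGen (Mv {g | g ∈ D} (fv Ta) (fv Tb)) (s, s) p := by
  rw [reach_iff]
  constructor
  · rintro ⟨l, h1, h2⟩
    have key : ∀ (l : List Arc) (p q : ℕ × ℕ), Wk (Nat.pair p.1 p.2) l (Nat.pair q.1 q.2) →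
        (∀ a ∈ l, a ∈ moves V Ta Tb (l0 D Ta Tb) (lp D Ta Tb) (lp D Tb Ta)) →
        Relation.ReflTransGen (Mv {g | g ∈ D} (fv Ta) (fv Tb)) p q := by
      intro l
      induction l with
      | nil =>
        intro p q h _
        simp only [Wk, Nat.pair_eq_pair] at h
        rw [Prod.ext h.1 h.2]
      | cons g l ih =>
        intro p q h hl
        obtain ⟨h3, h4⟩ := h
        obtain ⟨p', q', _, _, h5, h6⟩ := (mem_moves hD).1 (hl g List.mem_cons_self)
        rw [h6] at h3 h4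
        simp only [tl, hd, mk, Nat.pair_eq_pair] at h3 h4
        have : p' = p := Prod.ext h3.1 h3.2
        subst this
        exact Relation.ReflTransGen.head h5 (ih q' q h4 (fun a ha =>
          hl a (List.mem_cons_of_mem _ ha)))
    exact key l (s, s) p h1 h2
  · intro h
    have key : Rch {g | g ∈ moves V Ta Tb (l0 D Ta Tb) (lp D Ta Tb) (lp D Tb Ta)}
        (Nat.pair s s) (Nat.pair p.1 p.2) ∧ p.1 ∈ V ∧ p.2 ∈ V := by
      induction h with
      | refl => exact ⟨Rch.refl _ _, hs, hs⟩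
      | @tail p q _ hm ih =>
        obtain ⟨h1, h2, h3⟩ := ih
        refine ⟨?_, mv_mem hV ⟨h2, h3⟩ hm⟩
        exact Rch.tail (a := mk p.1 p.2 q.1 q.2) h1 ((mem_moves hD).2 ⟨p, q, h2, h3, hm, rfl⟩)
    exact key.1

theorem accept_iff (hD : WF {g | g ∈ D}) (ha : Pot {g | g ∈ D} (fv Ta))
    (hb : Pot {g | g ∈ D} (fv Tb)) {V : List ℕ} (hV : ∀ g ∈ D, hd g ∈ V ∧ tl g ∈ V)
    {s t : ℕ} (hs : s ∈ V) :
    accept V Ta Tb (l0 D Ta Tb) (lp D Ta Tb) (lp D Tb Ta) s t = true ↔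
      TwoW {g | g ∈ D} (fv Ta) (fv Tb) s t := by
  have hE : WF {g | g ∈ l0 D Ta Tb} := hD.mono (fun g hg => (List.mem_filter.1 hg).1)
  rw [two_iff hD ha hb]
  have hlev : ∀ x y, (!ltB Ta Tb x y) = true ∧ (!ltB Ta Tb y x) = true ↔
      ps (fv Ta) (fv Tb) x = ps (fv Ta) (fv Tb) y := by
    intro x y
    rw [Bool.not_eq_true', Bool.not_eq_true', ← Bool.not_eq_true, ← Bool.not_eq_true, ltB_iff,
      ltB_iff]
    omega
  unfold accept
  rw [List.any_eq_true]
  constructor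
  · rintro ⟨x, hx, h⟩
    rw [List.any_eq_true] at h
    obtain ⟨y, hy, h⟩ := h
    rw [Bool.and_eq_true, Bool.and_eq_true, Bool.and_eq_true, Bool.and_eq_true,
      Bool.and_eq_true] at h
    obtain ⟨⟨⟨⟨⟨h1, h2⟩, h3⟩, h4⟩, h5⟩, h6⟩ := h
    rw [nnB_iff hE, set_l0] at h5
    exact ⟨(x, y), (reach_moves hD hV hs (x, y)).1 h6, (hlev _ _).1 ⟨h1, h2⟩,
      (hlev _ _).1 ⟨h3, h4⟩, h5⟩
  · rintro ⟨⟨x, y⟩, h1, h2, h3, h4⟩
    have hmem : (x, y).1 ∈ V ∧ (x, y).2 ∈ V := by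
      generalize (x, y) = p at h1
      induction h1 with
      | refl => exact ⟨hs, hs⟩
      | tail _ hm ih => exact mv_mem hV ih hm
    refine ⟨x, hmem.1, ?_⟩
    rw [List.any_eq_true]
    refine ⟨y, hmem.2, ?_⟩
    rw [Bool.and_eq_true, Bool.and_eq_true, Bool.and_eq_true, Bool.and_eq_true,
      Bool.and_eq_true, nnB_iff hE, set_l0]
    have e1 := (hlev _ _).2 h2
    have e2 := (hlev _ _).2 h3
    exact ⟨⟨⟨⟨⟨e1.1, e1.2⟩, e2.1⟩, e2.2⟩, h4⟩, (reach_moves hD hV hs (x, y)).2 h1⟩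

end

/-! ### two shortest walks -/

/-- Two shortest walks (as far as there are any), and no edge in opposite directions. -/
def Cond (D : Set Arc) (s t : ℕ) : Prop := ∃ P Q : List Arc, (∀ g ∈ P ++ Q, g ∈ D) ∧
  (∀ g ∈ P ++ Q, ∀ h ∈ P ++ Q, ¬ conf g h) ∧
  ((Wk s P t ∧ ∀ l, Wk s l t → (∀ g ∈ l, g ∈ D) → wl P ≤ wl l) ∨ ¬ Rch D s t) ∧
  ((Wk t Q s ∧ ∀ l, Wk t l s → (∀ g ∈ l, g ∈ D) → wl Q ≤ wl l) ∨ ¬ Rch D t s)

theorem shortest {D : Set Arc} (hD : WF D) {s t : ℕ} (h : Rch D s t) : ∃ P : List Arc,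
    Wk s P t ∧ (∀ g ∈ P, g ∈ D) ∧ (∀ g ∈ P, ∀ h ∈ P, ¬ conf g h) ∧
      ∀ l, Wk s l t → (∀ g ∈ l, g ∈ D) → wl P ≤ wl l := by
  have hne : (La D s t).Nonempty := by
    obtain ⟨l, h1, h2⟩ := h
    exact ⟨_, l, h1, h2, rfl⟩
  obtain ⟨l, h1, h2, h3⟩ := Nat.sInf_mem hne
  obtain ⟨P, h4, h5, h6, h7⟩ := simple hD _ l s t rfl h1 h2
  refine ⟨P, h4, fun g hg => h2 g (h5 g hg), h6, fun m hm hmD => ?_⟩
  have : sInf (La D s t) ≤ wl m := Nat.sInf_le ⟨m, hm, hmD, rfl⟩
  omega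

theorem av_bf {D : List Arc} {s v : ℕ} (h : Rch {g | g ∈ D} s v) :
    IsLeast (La {g | g ∈ D} s v) (av (bf D s) v) := by
  have hne : (La {g | g ∈ D} s v).Nonempty := by
    obtain ⟨l, h1, h2⟩ := h
    exact ⟨_, l, h1, h2, rfl⟩
  have hm : (v, sInf (La {g | g ∈ D} s v)) ∈ bf D s :=
    mem_bf.2 ⟨Nat.sInf_mem hne, fun _ h => Nat.sInf_le h⟩
  unfold av
  rcases hh : ((bf D s).filter (fun e => decide (e.1 = v))).head? with _ | ⟨u, c⟩
  · exfalso
    rw [List.head?_eq_none_iff] at hh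
    have : (v, sInf (La {g | g ∈ D} s v)) ∈ (bf D s).filter (fun e => decide (e.1 = v)) :=
      List.mem_filter.2 ⟨hm, by simp⟩
    rw [hh] at this
    exact absurd this List.not_mem_nil
  · have h1 := List.mem_of_mem_head? hh
    rw [List.mem_filter, decide_eq_true_eq] at h1
    obtain ⟨h2, h3⟩ := h1
    simp only at h3
    subst h3
    rw [hh]
    exact mem_bf.1 h2

theorem any_bf {D : List Arc} {s v : ℕ} :
    (bf D s).any (fun e => decide (e.1 = v)) = true ↔ Rch {g | g ∈ D} s v := reach_iff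

theorem mem_dr {D : List Arc} {s : ℕ} {g : Arc} :
    g ∈ dr D (bf D s) ↔ g ∈ D ∧ Rch {g | g ∈ D} s (tl g) := by
  unfold dr
  rw [List.mem_filter, any_bf]

theorem Rch.trans {D : Set Arc} {x y z : ℕ} (h : Rch D x y) (h' : Rch D y z) : Rch D x z := by
  obtain ⟨l, h1, h2⟩ := h
  obtain ⟨m, h3, h4⟩ := h'
  refine ⟨l ++ m, h1.append h3, fun a ha => ?_⟩
  rw [List.mem_append] at ha
  rcases ha with ha | ha
  · exact h2 a ha
  · exact h4 a ha

theorem rch_of_mem {D : Set Arc} {x y : ℕ} {l : List Arc} (h : Wk x l y) (hl : ∀ g ∈ l, g ∈ D)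
    {g : Arc} (hg : g ∈ l) : Rch D x (tl g) := by
  obtain ⟨l1, l2, rfl⟩ := List.append_of_mem hg
  exact ⟨l1, (wk_mid.1 h).1, fun a ha => hl a (by simp [ha])⟩

theorem pot_bf {D : List Arc} {s : ℕ} {g : Arc} (hg : g ∈ D) (h : Rch {g | g ∈ D} s (tl g)) :
    fv (bf D s) (hd g) ≤ fv (bf D s) (tl g) + wt g := by
  obtain ⟨l, h1, h2, h3⟩ := (av_bf h).1
  have h4 := (av_bf (Rch.tail (a := g) h hg)).2 ⟨l ++ [g], wk_mid.2 ⟨h1, rfl⟩, (by
    intro b hb
    rw [List.mem_append, List.mem_singleton] at hb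
    rcases hb with hb | rfl
    · exact h2 b hb
    · exact hg), rfl⟩
  rw [wl_append, wl_cons] at h4
  have h5 : wl [] = 0 := rfl
  unfold fv
  omega

theorem fv_self {D : List Arc} {s : ℕ} : fv (bf D s) s = 0 := by
  have h := (av_bf (D := D) (Rch.refl _ s)).2 ⟨[], rfl, by simp, rfl⟩
  have h5 : wl [] = 0 := rfl
  unfold fv
  omega

theorem cond_iff {D : List Arc} (hD : WF {g | g ∈ D}) {s t : ℕ} (hst : Rch {g | g ∈ D} s t)
    (hts : Rch {g | g ∈ D} t s) : Cond {g | g ∈ D} s t ↔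
      TwoW {g | g ∈ dr D (bf D s)} (fv (bf D s)) (fv (bf D t)) s t := by
  have hDR : WF {g | g ∈ dr D (bf D s)} := hD.mono (fun g hg => (mem_dr.1 hg).1)
  have hpa : Pot {g | g ∈ dr D (bf D s)} (fv (bf D s)) := fun g hg =>
    pot_bf (mem_dr.1 hg).1 (mem_dr.1 hg).2
  have hpb : Pot {g | g ∈ dr D (bf D s)} (fv (bf D t)) := fun g hg =>
    pot_bf (mem_dr.1 hg).1 (hts.trans (mem_dr.1 hg).2)
  constructor
  · rintro ⟨P, Q, h1, h2, h3, h4⟩
    rcases h3 with ⟨hP, hPm⟩ | h3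
    · rcases h4 with ⟨hQ, hQm⟩ | h4
      · have hPD : ∀ g ∈ P, g ∈ D := fun g hg => h1 g (by simp [hg])
        have hQD : ∀ g ∈ Q, g ∈ D := fun g hg => h1 g (by simp [hg])
        have hPR : ∀ g ∈ P, g ∈ dr D (bf D s) := fun g hg =>
          mem_dr.2 ⟨hPD g hg, rch_of_mem hP hPD hg⟩
        have hQR : ∀ g ∈ Q, g ∈ dr D (bf D s) := fun g hg =>
          mem_dr.2 ⟨hQD g hg, hst.trans (rch_of_mem hQ hQD hg)⟩
        refine ⟨P, Q, hP, fun g hg => ⟨hPR g hg, ?_⟩, hQ, fun g hg => ⟨hQR g hg, ?_⟩,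
          fun g hg h hh => h2 g (by simp [hg]) h (by simp [hh])⟩
        · refine (tel hpa hP hPR).2 ?_ g hg
          rw [fv_self]
          have e1 := (av_bf hst).2 ⟨P, hP, hPD, rfl⟩
          obtain ⟨l, e2, e3, e4⟩ := (av_bf hst).1
          have e5 := hPm l e2 e3
          unfold fv
          omega
        · refine (tel hpb hQ hQR).2 ?_ g hg
          rw [fv_self]
          have e1 := (av_bf hts).2 ⟨Q, hQ, hQD, rfl⟩
          obtain ⟨l, e2, e3, e4⟩ := (av_bf hts).1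
          have e5 := hQm l e2 e3
          unfold fv
          omega
      · exact absurd hts h4
    · exact absurd hst h3
  · rintro ⟨P, Q, hP, hPt, hQ, hQt, hc⟩
    have hPD : ∀ g ∈ P, g ∈ D := fun g hg => (mem_dr.1 (hPt g hg).1).1
    have hQD : ∀ g ∈ Q, g ∈ D := fun g hg => (mem_dr.1 (hQt g hg).1).1
    have e1 := tel_tight hP (fun g hg => (hPt g hg).2)
    have e2 := tel_tight hQ (fun g hg => (hQt g hg).2)
    rw [fv_self] at e1 e2
    unfold fv at e1 e2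
    obtain ⟨P', f1, f2, f3, f4⟩ := simple hD _ P s t rfl hP hPD
    obtain ⟨Q', g1, g2, g3, g4⟩ := simple hD _ Q t s rfl hQ hQD
    refine ⟨P', Q', ?_, ?_, Or.inl ⟨f1, fun l hl hlD => ?_⟩, Or.inl ⟨g1, fun l hl hlD => ?_⟩⟩
    · intro g hg
      rw [List.mem_append] at hg
      rcases hg with hg | hg
      · exact hPD g (f2 g hg)
      · exact hQD g (g2 g hg)
    · intro g hg h hh
      rw [List.mem_append] at hg hh
      rcases hg with hg | hg
      · rcases hh with hh | hh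
        · exact f3 g hg h hh
        · exact hc g (f2 g hg) h (g2 h hh)
      · rcases hh with hh | hh
        · exact fun hgh => hc h (f2 h hh) g (g2 g hg) (conf_comm.1 hgh)
        · exact g3 g hg h hh
    · have := (av_bf hst).2 ⟨l, hl, hlD, rfl⟩
      omega
    · have := (av_bf hts).2 ⟨l, hl, hlD, rfl⟩
      omega

/-- **The test is correct.** -/
theorem test_iff {D : List Arc} (hD : WF {g | g ∈ D}) (s t : ℕ) :
    test D s t = true ↔ Cond {g | g ∈ D} s t := by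
  unfold test
  rw [Bool.or_eq_true, Bool.or_eq_true, Bool.not_eq_true', Bool.not_eq_true',
    ← Bool.not_eq_true, ← Bool.not_eq_true, reach_iff, reach_iff]
  by_cases hst : Rch {g | g ∈ D} s t
  · by_cases hts : Rch {g | g ∈ D} t s
    · have hDR : WF {g | g ∈ dr D (bf D s)} := hD.mono (fun g hg => (mem_dr.1 hg).1)
      have hpa : Pot {g | g ∈ dr D (bf D s)} (fv (bf D s)) := fun g hg =>
        pot_bf (mem_dr.1 hg).1 (mem_dr.1 hg).2
      have hpb : Pot {g | g ∈ dr D (bf D s)} (fv (bf D t)) := fun g hg =>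
        pot_bf (mem_dr.1 hg).1 (hts.trans (mem_dr.1 hg).2)
      rw [cond_iff hD hst hts, accept_iff hDR hpa hpb (V := s :: (D.map hd ++ D.map tl)) (by
        intro g hg
        have := (mem_dr.1 hg).1
        constructor
        · exact List.mem_cons_of_mem _ (List.mem_append_left _ (List.mem_map.2 ⟨g, this, rfl⟩))
        · exact List.mem_cons_of_mem _ (List.mem_append_right _ (List.mem_map.2 ⟨g, this, rfl⟩)))
        List.mem_cons_self]
      simp [hst, hts]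
    · simp only [hts, not_false_eq_true, or_true, true_or, true_iff]
      obtain ⟨P, h1, h2, h3, h4⟩ := shortest hD hst
      exact ⟨P, [], by simpa using h2, by simpa using h3, Or.inl ⟨h1, h4⟩, Or.inr hts⟩
  · simp only [hst, not_false_eq_true, true_or, true_iff]
    by_cases hts : Rch {g | g ∈ D} t s
    · obtain ⟨P, h1, h2, h3, h4⟩ := shortest hD hts
      exact ⟨[], P, by simpa using h2, by simpa using h3, Or.inr hst, Or.inl ⟨h1, h4⟩⟩
    · exact ⟨[], [], by simp, by simp, Or.inr hst, Or.inr hts⟩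

end Q224.OM
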