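import Mathlib

/-!
# Orientations of mixed graphs which preserve distances: definitions
-/

set_option autoImplicit false

namespace Q224.OM

/-- Arcs of a directed graph on the natural numbers with rational lengths: `(tail, head, length)`. -/
abbrev RArc := ℕ × ℕ × ℚ

/-- The list of arcs is a directed walk from the first vertex to the second one. -/
def IsWalk : ℕ → List RArc → ℕ → Prop
  | x, [], y => x = y
  | x, a :: l, y => a.1 = x ∧ IsWalk a.2.1 l y

/-- The length of a walk. -/
def len (l : List RArc) : ℚ := (l.map (fun a => a.2.2)).sum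

/-- The distance from `x` to `y` in the directed graph with the arcs `D`: the infimum of the lengths
of the directed walks from `x` to `y` (`⊤ = +∞` if there is none).  All lengths are non-negative in
what follows, so that this is the minimum length of a directed path. -/
noncomputable def dist (D : Set RArc) (x y : ℕ) : EReal :=
  ⨅ l ∈ {l : List RArc | IsWalk x l y ∧ ∀ a ∈ l, a ∈ D}, (((len l : ℚ) : ℝ) : EReal)

/-- Codes of mixed graphs: the list of the undirected edges and the list of the directed arcs; the
entry `(u, v, p, q)` is an edge between `u` and `v` (an arc from `u` to `v`) of length `p / q`. -/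
abbrev MG := List (ℕ × ℕ × ℕ × ℕ) × List (ℕ × ℕ × ℕ × ℕ)

/-- The arc from the first vertex to the second one. -/
def fwd (e : ℕ × ℕ × ℕ × ℕ) : RArc := (e.1, e.2.1, (e.2.2.1 : ℚ) / (e.2.2.2 : ℚ))

/-- The arc from the second vertex to the first one. -/
def bwd (e : ℕ × ℕ × ℕ × ℕ) : RArc := (e.2.1, e.1, (e.2.2.1 : ℚ) / (e.2.2.2 : ℚ))

/-- Every undirected edge is replaced by the two opposite arcs. -/
def bidir (g : MG) : Set RArc :=
  {a | (∃ e ∈ g.1, a = fwd e ∨ a = bwd e) ∨ ∃ e ∈ g.2, a = fwd e}

/-- The orientation of the mixed graph in which the undirected edge number `i` is replaced by the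
arc from its first vertex to its second vertex if `o i` is true, and by the opposite arc if not. -/
def orient (g : MG) (o : ℕ → Bool) : Set RArc :=
  {a | (∃ (i : ℕ) (h : i < g.1.length), a = if o i = true then fwd g.1[i] else bwd g.1[i]) ∨
    ∃ e ∈ g.2, a = fwd e}

/-- The decision problem: the mixed graph `x.1` (all denominators positive) has an orientation
which preserves the distance from `s = x.2.1` to `t = x.2.2` and the distance from `t` to `s`. -/
def Preserving (x : MG × (ℕ × ℕ)) : Prop :=
  (∀ e ∈ x.1.1 ++ x.1.2, 0 < e.2.2.2) ∧ ∃ o : ℕ → Bool,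
    dist (orient x.1 o) x.2.1 x.2.2 = dist (bidir x.1) x.2.1 x.2.2 ∧
    dist (orient x.1 o) x.2.2 x.2.1 = dist (bidir x.1) x.2.2 x.2.1

end Q224.OM
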