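import Pool.Agent.Q224.OM.Defs
import Pool.Agent.Q224.OM.Cond

/-!
# Orientations and the test
-/

set_option autoImplicit false

namespace Q224.OM

/-- From labelled arcs to arcs. -/
def pj (N : ℕ) (a : Arc) : RArc := (tl a, hd a, (wt a : ℚ) / (N : ℚ))

/-- Distances by labelled arcs. -/
noncomputable def ld (N : ℕ) (L : Set Arc) (x y : ℕ) : EReal :=
  ⨅ l ∈ {l : List Arc | Wk x l y ∧ ∀ a ∈ l, a ∈ L}, (((wl l : ℝ) / (N : ℝ) : ℝ) : EReal)

theorem isWalk_map (N : ℕ) (l : List Arc) (x y : ℕ) :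
    IsWalk x (l.map (pj N)) y ↔ Wk x l y := by
  induction l generalizing x with
  | nil => exact Iff.rfl
  | cons a l ih =>
    rw [List.map_cons]
    unfold IsWalk Wk
    rw [ih]
    exact Iff.rfl

theorem len_map (N : ℕ) (l : List Arc) :
    (((len (l.map (pj N)) : ℚ) : ℝ) : EReal) = (((wl l : ℝ) / (N : ℝ) : ℝ) : EReal) := by
  congr 1
  induction l with
  | nil => simp [len, wl]
  | cons a l ih =>
    have h1 : len ((a :: l).map (pj N)) = (wt a : ℚ) / (N : ℚ) + len (l.map (pj N)) := by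
      unfold len
      rw [List.map_cons, List.map_cons, List.sum_cons]
      rfl
    rw [h1, wl_cons]
    push_cast
    rw [ih]
    ring

theorem dist_image (N : ℕ) (L : Set Arc) (x y : ℕ) : dist (pj N '' L) x y = ld N L x y := by
  unfold dist ld
  refine le_antisymm ?_ ?_
  · refine le_iInf₂ fun l hl => ?_
    rw [← len_map]
    refine iInf₂_le (l.map (pj N)) ⟨(isWalk_map N l x y).2 hl.1, ?_⟩
    intro a ha
    obtain ⟨b, hb, rfl⟩ := List.mem_map.1 ha
    exact ⟨b, hl.2 b hb, rfl⟩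
  · refine le_iInf₂ fun l hl => ?_
    have hlift : ∀ l : List RArc, (∀ a ∈ l, a ∈ pj N '' L) →
        ∃ m : List Arc, m.map (pj N) = l ∧ ∀ a ∈ m, a ∈ L := by
      intro l
      induction l with
      | nil => intro _; exact ⟨[], rfl, by simp⟩
      | cons a l ih =>
        intro h
        obtain ⟨m, h1, h2⟩ := ih (fun b hb => h b (List.mem_cons_of_mem _ hb))
        obtain ⟨b, hb, h3⟩ := h a List.mem_cons_self
        refine ⟨b :: m, by rw [List.map_cons, h1, h3], fun c hc => ?_⟩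
        rcases List.mem_cons.1 hc with rfl | hc
        · exact hb
        · exact h2 c hc
    obtain ⟨m, rfl, hm⟩ := hlift l hl.2
    rw [len_map]
    exact iInf₂_le m ⟨(isWalk_map N m x y).1 hl.1, hm⟩

theorem ld_eq_iff {N : ℕ} (hN : 0 < N) {L1 L2 : Set Arc} (hL : L1 ⊆ L2) (x y : ℕ) :
    ld N L1 x y = ld N L2 x y ↔
      (∃ P, Wk x P y ∧ (∀ a ∈ P, a ∈ L1) ∧ ∀ l, Wk x l y → (∀ a ∈ l, a ∈ L2) → wl P ≤ wl l) ∨
        ¬ Rch L2 x y := by
  have hN' : (0 : ℝ) < N := Nat.cast_pos.2 hN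
  have hmono : ∀ a b : ℕ, (((a : ℝ) / (N : ℝ) : ℝ) : EReal) ≤ (((b : ℝ) / (N : ℝ) : ℝ) : EReal) ↔
      a ≤ b := by
    intro a b
    rw [EReal.coe_le_coe_iff, div_le_div_iff_of_pos_right hN', Nat.cast_le]
  constructor
  · intro h
    by_cases hr : Rch L2 x y
    · left
      obtain ⟨l0, h1, h2⟩ := hr
      have hlt : ld N L1 x y < ⊤ := by
        rw [h]
        exact lt_of_le_of_lt (iInf₂_le l0 ⟨h1, h2⟩) (EReal.coe_lt_top _)
      have hne : (La L1 x y).Nonempty := by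
        by_contra hc
        rw [Set.not_nonempty_iff_eq_empty] at hc
        apply hlt.ne
        unfold ld
        rw [iInf₂_eq_top]
        intro l hl
        exfalso
        have : wl l ∈ La L1 x y := ⟨l, hl.1, hl.2, rfl⟩
        rw [hc] at this
        exact this
      obtain ⟨P, hP, hP1, hP2⟩ := Nat.sInf_mem hne
      refine ⟨P, hP, hP1, fun l hl hlL => ?_⟩
      have e1 : (((wl P : ℝ) / (N : ℝ) : ℝ) : EReal) ≤ ld N L1 x y := by
        refine le_iInf₂ fun m hm => ?_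
        rw [hmono, ← hP2]
        exact Nat.sInf_le ⟨m, hm.1, hm.2, rfl⟩
      rw [h] at e1
      exact (hmono _ _).1 (e1.trans (iInf₂_le l ⟨hl, hlL⟩))
    · exact Or.inr hr
  · rintro (⟨P, h1, h2, h3⟩ | hr)
    · refine le_antisymm ?_ ?_
      · refine le_iInf₂ fun l hl => ?_
        refine (iInf₂_le P ⟨h1, h2⟩).trans ?_
        rw [hmono]
        exact h3 l hl.1 hl.2
      · refine le_iInf₂ fun l hl => ?_
        exact iInf₂_le l ⟨hl.1, fun a ha => hL (hl.2 a ha)⟩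
    · have e2 : ld N L2 x y = ⊤ := by
        unfold ld
        rw [iInf₂_eq_top]
        intro l hl
        exact absurd ⟨l, hl.1, hl.2⟩ hr
      have e1 : ld N L1 x y = ⊤ := by
        unfold ld
        rw [iInf₂_eq_top]
        intro l hl
        exact absurd ⟨l, hl.1, fun a ha => hL (hl.2 a ha)⟩ hr
      rw [e1, e2]

/-! ### the labelled arcs of a mixed graph -/

/-- The common denominator. -/
def den (g : MG) : ℕ := (g.1 ++ g.2).foldl (fun n e => n * e.2.2.2) 1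

/-- The scaled length. -/
def sw (N : ℕ) (e : ℕ × ℕ × ℕ × ℕ) : ℕ := e.2.2.1 * (N / e.2.2.2)

/-- The indices of a list. -/
def ix {β : Type} (l : List β) : List ℕ := List.range l.length

/-- The labelled arcs. -/
def lab (g : MG) : List Arc :=
  (ix g.1).flatMap (fun i =>
    [((i, true), (g.1.getD i (0, 0, 0, 0)).1, (g.1.getD i (0, 0, 0, 0)).2.1,
        sw (den g) (g.1.getD i (0, 0, 0, 0))),
      ((i, false), (g.1.getD i (0, 0, 0, 0)).2.1, (g.1.getD i (0, 0, 0, 0)).1,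
        sw (den g) (g.1.getD i (0, 0, 0, 0)))]) ++
  (ix g.2).map (fun i => ((g.1.length + i, true), (g.2.getD i (0, 0, 0, 0)).1,
    (g.2.getD i (0, 0, 0, 0)).2.1, sw (den g) (g.2.getD i (0, 0, 0, 0))))

theorem foldl_den (l : List (ℕ × ℕ × ℕ × ℕ)) : ∀ n : ℕ, (0 < n → (∀ e ∈ l, 0 < e.2.2.2) →
    0 < l.foldl (fun n e => n * e.2.2.2) n) ∧ n ∣ l.foldl (fun n e => n * e.2.2.2) n ∧
      ∀ e ∈ l, e.2.2.2 ∣ l.foldl (fun n e => n * e.2.2.2) n := by
  induction l with
  | nil => intro n; simp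
  | cons a l ih =>
    intro n
    rw [List.foldl_cons]
    obtain ⟨h1, h2, h3⟩ := ih (n * a.2.2.2)
    refine ⟨fun hn hl => h1 (Nat.mul_pos hn (hl a List.mem_cons_self))
      (fun e he => hl e (List.mem_cons_of_mem _ he)), (Dvd.intro _ rfl).trans h2, fun e he => ?_⟩
    rcases List.mem_cons.1 he with rfl | he
    · exact (Dvd.intro_left _ rfl).trans h2
    · exact h3 e he

theorem den_pos {g : MG} (h : ∀ e ∈ g.1 ++ g.2, 0 < e.2.2.2) : 0 < den g :=
  (foldl_den _ 1).1 one_pos h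

theorem sw_eq {g : MG} (h : ∀ e ∈ g.1 ++ g.2, 0 < e.2.2.2) {e : ℕ × ℕ × ℕ × ℕ}
    (he : e ∈ g.1 ++ g.2) :
    ((sw (den g) e : ℕ) : ℚ) / ((den g : ℕ) : ℚ) = (e.2.2.1 : ℚ) / (e.2.2.2 : ℚ) := by
  obtain ⟨m, hm⟩ := (foldl_den (g.1 ++ g.2) 1).2.2 e he
  have hd : den g = e.2.2.2 * m := hm
  have h1 := h e he
  have h2 : 0 < den g := den_pos h
  have h3 : 0 < m := by
    rcases Nat.eq_zero_or_pos m with h4 | h4
    · rw [h4, Nat.mul_zero] at hd; omega
    · exact h4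
  unfold sw
  rw [hd, Nat.mul_div_cancel_left _ h1]
  have h1' : (e.2.2.2 : ℚ) ≠ 0 := Nat.cast_ne_zero.2 (by omega)
  have h3' : (m : ℚ) ≠ 0 := Nat.cast_ne_zero.2 (by omega)
  push_cast
  field_simp

theorem mem_lab {g : MG} {a : Arc} : a ∈ lab g ↔
    (∃ (i : ℕ) (h : i < g.1.length),
      a = ((i, true), (g.1[i]).1, (g.1[i]).2.1, sw (den g) g.1[i]) ∨
      a = ((i, false), (g.1[i]).2.1, (g.1[i]).1, sw (den g) g.1[i])) ∨
    ∃ (i : ℕ) (h : i < g.2.length),
      a = ((g.1.length + i, true), (g.2[i]).1, (g.2[i]).2.1, sw (den g) g.2[i]) := by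
  unfold lab ix
  rw [List.mem_append, List.mem_flatMap, List.mem_map]
  constructor
  · rintro (⟨i, hi, h⟩ | ⟨i, hi, h⟩)
    · rw [List.mem_range] at hi
      rw [List.getD_eq_getElem _ _ hi, List.mem_cons, List.mem_singleton] at h
      exact Or.inl ⟨i, hi, h⟩
    · rw [List.mem_range] at hi
      rw [List.getD_eq_getElem _ _ hi] at h
      exact Or.inr ⟨i, hi, h.symm⟩
  · rintro (⟨i, hi, h⟩ | ⟨i, hi, h⟩)
    · refine Or.inl ⟨i, List.mem_range.2 hi, ?_⟩
      rw [List.getD_eq_getElem _ _ hi, List.mem_cons, List.mem_singleton]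
      exact h
    · refine Or.inr ⟨i, List.mem_range.2 hi, ?_⟩
      rw [List.getD_eq_getElem _ _ hi]
      exact h.symm

theorem lab_wf (g : MG) : WF {a | a ∈ lab g} := by
  constructor
  · intro a ha b hb hab
    rcases mem_lab.1 ha with ⟨i, hi, rfl | rfl⟩ | ⟨i, hi, rfl⟩ <;>
      rcases mem_lab.1 hb with ⟨j, hj, rfl | rfl⟩ | ⟨j, hj, rfl⟩ <;>
      simp only [Prod.mk.injEq, reduceCtorEq, and_false, and_true] at hab
    · subst hab; rfl
    · omega
    · subst hab; rfl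
    · omega
    · obtain rfl : i = j := by omega
      rfl
  · intro a ha b hb hab
    obtain ⟨h1, h2⟩ := hab
    rcases mem_lab.1 ha with ⟨i, hi, rfl | rfl⟩ | ⟨i, hi, rfl⟩ <;>
      rcases mem_lab.1 hb with ⟨j, hj, rfl | rfl⟩ | ⟨j, hj, rfl⟩ <;>
      simp only at h1 h2
    · exact absurd rfl h2
    · subst h1; rfl
    · exact absurd rfl h2
    · subst h1; rfl
    · exact absurd rfl h2
    · omega
    · exact absurd rfl h2
    · omega
    · exact absurd rfl h2

/-- The arcs which are used by the orientation. -/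
def agr (g : MG) (o : ℕ → Bool) : Set Arc :=
  {a | a ∈ lab g ∧ (a.1.1 < g.1.length → a.1.2 = o a.1.1)}

theorem image_lab {g : MG} (h : ∀ e ∈ g.1 ++ g.2, 0 < e.2.2.2) :
    pj (den g) '' {a | a ∈ lab g} = bidir g := by
  ext r
  constructor
  · rintro ⟨a, ha, rfl⟩
    rcases mem_lab.1 ha with ⟨i, hi, rfl | rfl⟩ | ⟨i, hi, rfl⟩
    · have hm : g.1[i] ∈ g.1 := List.getElem_mem hi
      exact Or.inl ⟨_, hm, Or.inl (by
        unfold pj fwd tl hd wt
        rw [sw_eq h (List.mem_append_left _ hm)])⟩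
    · have hm : g.1[i] ∈ g.1 := List.getElem_mem hi
      exact Or.inl ⟨_, hm, Or.inr (by
        unfold pj bwd tl hd wt
        rw [sw_eq h (List.mem_append_left _ hm)])⟩
    · have hm : g.2[i] ∈ g.2 := List.getElem_mem hi
      exact Or.inr ⟨_, hm, (by
        unfold pj fwd tl hd wt
        rw [sw_eq h (List.mem_append_right _ hm)])⟩
  · rintro (⟨e, he, hr⟩ | ⟨e, he, rfl⟩)
    · obtain ⟨i, hi, rfl⟩ := List.mem_iff_getElem.1 he
      rcases hr with rfl | rfl
      · refine ⟨_, mem_lab.2 (Or.inl ⟨i, hi, Or.inl rfl⟩), ?_⟩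
        unfold pj fwd tl hd wt
        rw [sw_eq h (List.mem_append_left _ he)]
      · refine ⟨_, mem_lab.2 (Or.inl ⟨i, hi, Or.inr rfl⟩), ?_⟩
        unfold pj bwd tl hd wt
        rw [sw_eq h (List.mem_append_left _ he)]
    · obtain ⟨i, hi, rfl⟩ := List.mem_iff_getElem.1 he
      refine ⟨_, mem_lab.2 (Or.inr ⟨i, hi, rfl⟩), ?_⟩
      unfold pj fwd tl hd wt
      rw [sw_eq h (List.mem_append_right _ he)]

theorem image_agr {g : MG} (h : ∀ e ∈ g.1 ++ g.2, 0 < e.2.2.2) (o : ℕ → Bool) :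
    pj (den g) '' agr g o = orient g o := by
  ext r
  constructor
  · rintro ⟨a, ⟨ha, hag⟩, rfl⟩
    rcases mem_lab.1 ha with ⟨i, hi, rfl | rfl⟩ | ⟨i, hi, rfl⟩
    · have hm : g.1[i] ∈ g.1 := List.getElem_mem hi
      have ho : true = o i := hag hi
      refine Or.inl ⟨i, hi, ?_⟩
      rw [← ho, if_pos rfl]
      unfold pj fwd tl hd wt
      rw [sw_eq h (List.mem_append_left _ hm)]
    · have hm : g.1[i] ∈ g.1 := List.getElem_mem hi
      have ho : false = o i := hag hi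
      refine Or.inl ⟨i, hi, ?_⟩
      rw [← ho, if_neg (by simp)]
      unfold pj bwd tl hd wt
      rw [sw_eq h (List.mem_append_left _ hm)]
    · have hm : g.2[i] ∈ g.2 := List.getElem_mem hi
      exact Or.inr ⟨_, hm, (by
        unfold pj fwd tl hd wt
        rw [sw_eq h (List.mem_append_right _ hm)])⟩
  · rintro (⟨i, hi, rfl⟩ | ⟨e, he, rfl⟩)
    · have he : g.1[i] ∈ g.1 := List.getElem_mem hi
      by_cases ho : o i = true
      · rw [if_pos ho]
        refine ⟨_, ⟨mem_lab.2 (Or.inl ⟨i, hi, Or.inl rfl⟩), fun _ => ho.symm⟩, ?_⟩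
        unfold pj fwd tl hd wt
        rw [sw_eq h (List.mem_append_left _ he)]
      · rw [if_neg ho]
        refine ⟨_, ⟨mem_lab.2 (Or.inl ⟨i, hi, Or.inr rfl⟩), fun _ => ?_⟩, ?_⟩
        · simpa using ho
        · unfold pj bwd tl hd wt
          rw [sw_eq h (List.mem_append_left _ he)]
    · obtain ⟨i, hi, rfl⟩ := List.mem_iff_getElem.1 he
      refine ⟨_, ⟨mem_lab.2 (Or.inr ⟨i, hi, rfl⟩), fun hlt => ?_⟩, ?_⟩
      · simp only at hlt; omega
      · unfold pj fwd tl hd wt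
        rw [sw_eq h (List.mem_append_right _ he)]

/-- **Orientations and walks without conflict.** -/
theorem preserving_iff (x : MG × (ℕ × ℕ)) : Preserving x ↔
    (∀ e ∈ x.1.1 ++ x.1.2, 0 < e.2.2.2) ∧ Cond {a | a ∈ lab x.1} x.2.1 x.2.2 := by
  obtain ⟨g, s, t⟩ := x
  unfold Preserving
  refine and_congr_right fun h => ?_
  simp only at h ⊢
  have hN := den_pos h
  have hsub : ∀ o, agr g o ⊆ {a | a ∈ lab g} := fun o a ha => ha.1
  constructor
  · rintro ⟨o, h1, h2⟩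
    rw [← image_lab h, ← image_agr h, dist_image, dist_image, ld_eq_iff hN (hsub o)] at h1 h2
    have hP : ∃ P, (∀ a ∈ P, a ∈ agr g o) ∧ ((Wk s P t ∧ ∀ l, Wk s l t →
        (∀ g' ∈ l, g' ∈ {a | a ∈ lab g}) → wl P ≤ wl l) ∨ ¬ Rch {a | a ∈ lab g} s t) := by
      rcases h1 with ⟨P, h3, h4, h5⟩ | h3
      · exact ⟨P, h4, Or.inl ⟨h3, h5⟩⟩
      · exact ⟨[], by simp, Or.inr h3⟩
    have hQ : ∃ P, (∀ a ∈ P, a ∈ agr g o) ∧ ((Wk t P s ∧ ∀ l, Wk t l s →
        (∀ g' ∈ l, g' ∈ {a | a ∈ lab g}) → wl P ≤ wl l) ∨ ¬ Rch {a | a ∈ lab g} t s) := by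
      rcases h2 with ⟨P, h3, h4, h5⟩ | h3
      · exact ⟨P, h4, Or.inl ⟨h3, h5⟩⟩
      · exact ⟨[], by simp, Or.inr h3⟩
    obtain ⟨P, hP1, hP2⟩ := hP
    obtain ⟨Q, hQ1, hQ2⟩ := hQ
    have hall : ∀ a ∈ P ++ Q, a ∈ agr g o := by
      intro a ha
      rw [List.mem_append] at ha
      rcases ha with ha | ha
      · exact hP1 a ha
      · exact hQ1 a ha
    refine ⟨P, Q, fun a ha => (hall a ha).1, fun a ha b hb hab => ?_, hP2, hQ2⟩
    obtain ⟨ha1, ha2⟩ := hall a ha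
    obtain ⟨hb1, hb2⟩ := hall b hb
    obtain ⟨c1, c2⟩ := hab
    by_cases hlt : a.1.1 < g.1.length
    · apply c2
      rw [ha2 hlt, hb2 (c1 ▸ hlt), c1]
    · have htrue : ∀ a : Arc, a ∈ lab g → ¬ a.1.1 < g.1.length → a.1.2 = true := by
        intro a ha hn
        rcases mem_lab.1 ha with ⟨i, hi, rfl | rfl⟩ | ⟨i, hi, rfl⟩
        · exact absurd hi hn
        · exact absurd hi hn
        · rfl
      apply c2
      rw [htrue a ha1 hlt, htrue b hb1 (c1 ▸ hlt)]
  · rintro ⟨P, Q, h1, h2, h3, h4⟩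
    classical
    refine ⟨fun i => decide (∃ a ∈ P ++ Q, a.1 = (i, true)), ?_⟩
    have hagr : ∀ a ∈ P ++ Q, a ∈ agr g (fun i => decide (∃ a ∈ P ++ Q, a.1 = (i, true))) := by
      intro a ha
      refine ⟨h1 a ha, fun _ => ?_⟩
      rcases hd : a.1.2 with _ | _
      · symm
        rw [decide_eq_false_iff_not]
        rintro ⟨b, hb, hb1⟩
        refine h2 a ha b hb ⟨by rw [hb1], ?_⟩
        rw [hd, hb1]
        simp
      · symm
        rw [decide_eq_true_eq]
        exact ⟨a, ha, Prod.ext rfl hd⟩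
    rw [← image_lab h, ← image_agr h, dist_image, dist_image, dist_image, dist_image,
      ld_eq_iff hN (hsub _), ld_eq_iff hN (hsub _)]
    constructor
    · rcases h3 with ⟨h5, h6⟩ | h5
      · exact Or.inl ⟨P, h5, fun a ha => hagr a (List.mem_append_left _ ha), h6⟩
      · exact Or.inr h5
    · rcases h4 with ⟨h5, h6⟩ | h5
      · exact Or.inl ⟨Q, h5, fun a ha => hagr a (List.mem_append_right _ ha), h6⟩
      · exact Or.inr h5

/-- The whole test. -/
def full (x : MG × (ℕ × ℕ)) : Bool :=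
  (x.1.1 ++ x.1.2).all (fun e => !decide (e.2.2.2 = 0)) && test (lab x.1) x.2.1 x.2.2

theorem full_iff (x : MG × (ℕ × ℕ)) : full x = true ↔ Preserving x := by
  rw [preserving_iff, ← test_iff (lab_wf x.1)]
  unfold full
  rw [Bool.and_eq_true, List.all_eq_true]
  simp only [Bool.not_eq_true', decide_eq_false_iff_not, Nat.pos_iff_ne_zero]

end Q224.OM
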