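import Pool.Agent.Q224.OM.BF

/-!
# Two tight walks: the pair graph
-/

set_option autoImplicit false

namespace Q224.OM

/-- `a` is a potential: it grows along arcs at most by the length. -/
def Pot (D : Set Arc) (a : ℕ → ℤ) : Prop := ∀ g ∈ D, a (hd g) ≤ a (tl g) + wt g

/-- Tight arcs. -/
def Tg (a : ℕ → ℤ) (g : Arc) : Prop := a (hd g) = a (tl g) + wt g

/-- Levels. -/
def ps (a b : ℕ → ℤ) (v : ℕ) : ℤ := b v - a v

/-- Arcs which are tight for both potentials. -/
def D0 (D : Set Arc) (a b : ℕ → ℤ) : Set Arc := {g | g ∈ D ∧ Tg a g ∧ Tg b g}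

/-- Arcs which are tight for `a` only. -/
def TP (D : Set Arc) (a b : ℕ → ℤ) : Set Arc := {g | g ∈ D ∧ Tg a g ∧ ¬ Tg b g}

/-- Arcs which are tight for `b` only. -/
def TQ (D : Set Arc) (a b : ℕ → ℤ) : Set Arc := {g | g ∈ D ∧ Tg b g ∧ ¬ Tg a g}

/-- Moves of the pair of pebbles. -/
def Mv (D : Set Arc) (a b : ℕ → ℤ) (p q : ℕ × ℕ) : Prop :=
  (ps a b p.2 < ps a b p.1 ∧ q.2 = p.2 ∧
    ∃ e ∈ TP D a b, Rch (D0 D a b) p.1 (tl e) ∧ q.1 = hd e) ∨
  (ps a b p.1 < ps a b p.2 ∧ q.1 = p.1 ∧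
    ∃ f ∈ TQ D a b, Rch (D0 D a b) (hd f) p.2 ∧ q.2 = tl f) ∨
  (ps a b p.1 = ps a b p.2 ∧ ∃ e ∈ TP D a b, ∃ f ∈ TQ D a b, ¬ conf e f ∧
    NN (D0 D a b) p.1 (tl e) (hd f) p.2 ∧ q.1 = hd e ∧ q.2 = tl f)

/-- Two tight walks without conflict. -/
def TwoW (D : Set Arc) (a b : ℕ → ℤ) (s t : ℕ) : Prop :=
  ∃ P Q, Wk s P t ∧ (∀ g ∈ P, g ∈ D ∧ Tg a g) ∧ Wk t Q s ∧ (∀ g ∈ Q, g ∈ D ∧ Tg b g) ∧
    ∀ g ∈ P, ∀ h ∈ Q, ¬ conf g h

section

variable {D : Set Arc} {a b : ℕ → ℤ}

theorem ps_d0 {g : Arc} (h : g ∈ D0 D a b) : ps a b (hd g) = ps a b (tl g) := by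
  obtain ⟨_, h1, h2⟩ := h
  unfold Tg at h1 h2
  unfold ps
  omega

theorem ps_tp (hb : Pot D b) {g : Arc} (h : g ∈ TP D a b) : ps a b (hd g) < ps a b (tl g) := by
  obtain ⟨h0, h1, h2⟩ := h
  have := hb g h0
  unfold Tg at h1 h2
  unfold ps
  omega

theorem ps_tq (ha : Pot D a) {g : Arc} (h : g ∈ TQ D a b) : ps a b (tl g) < ps a b (hd g) := by
  obtain ⟨h0, h1, h2⟩ := h
  have := ha g h0
  unfold Tg at h1 h2
  unfold ps
  omega

theorem ps_walk0 {l : List Arc} {x y : ℕ} (h : Wk x l y) (hl : ∀ g ∈ l, g ∈ D0 D a b) :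
    ps a b y = ps a b x ∧ ∀ g ∈ l, ps a b (tl g) = ps a b x ∧ ps a b (hd g) = ps a b x := by
  induction l generalizing x with
  | nil => simp only [Wk] at h; subst h; simp
  | cons g l ih =>
    obtain ⟨h1, h2⟩ := h
    have h3 := ps_d0 (hl g List.mem_cons_self)
    obtain ⟨h4, h5⟩ := ih h2 (fun c hc => hl c (List.mem_cons_of_mem _ hc))
    subst h1
    refine ⟨by rw [h4, h3], fun c hc => ?_⟩
    rcases List.mem_cons.1 hc with rfl | hc
    · exact ⟨rfl, h3⟩
    · rw [(h5 c hc).1, (h5 c hc).2, h3]; exact ⟨rfl, rfl⟩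

theorem ps_walkA (hb : Pot D b) {l : List Arc} {x y : ℕ} (h : Wk x l y)
    (hl : ∀ g ∈ l, g ∈ D ∧ Tg a g) : ps a b y ≤ ps a b x := by
  induction l generalizing x with
  | nil => simp only [Wk] at h; subst h; exact le_rfl
  | cons g l ih =>
    obtain ⟨h1, h2⟩ := h
    have h4 := ih h2 (fun c hc => hl c (List.mem_cons_of_mem _ hc))
    obtain ⟨h5, h6⟩ := hl g List.mem_cons_self
    have h7 := hb g h5
    subst h1
    unfold Tg at h6
    unfold ps at h4 ⊢
    omega

theorem ps_walkB (ha : Pot D a) {l : List Arc} {x y : ℕ} (h : Wk x l y)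
    (hl : ∀ g ∈ l, g ∈ D ∧ Tg b g) : ps a b x ≤ ps a b y := by
  induction l generalizing x with
  | nil => simp only [Wk] at h; subst h; exact le_rfl
  | cons g l ih =>
    obtain ⟨h1, h2⟩ := h
    have h4 := ih h2 (fun c hc => hl c (List.mem_cons_of_mem _ hc))
    obtain ⟨h5, h6⟩ := hl g List.mem_cons_self
    have h7 := ha g h5
    subst h1
    unfold Tg at h6
    unfold ps at h4 ⊢
    omega

/-- The invariant of the pebbles. -/
def Inv (D : Set Arc) (a b : ℕ → ℤ) (s : ℕ) (p : ℕ × ℕ) : Prop :=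
  ∃ P Q, Wk s P p.1 ∧ (∀ g ∈ P, g ∈ D ∧ Tg a g) ∧ Wk p.2 Q s ∧ (∀ g ∈ Q, g ∈ D ∧ Tg b g) ∧
    (∀ g ∈ P, ∀ h ∈ Q, ¬ conf g h) ∧
    (∀ g ∈ P, ps a b p.1 < ps a b (tl g) ∧ ps a b p.2 < ps a b (tl g)) ∧
    (∀ h ∈ Q, ps a b p.1 < ps a b (hd h) ∧ ps a b p.2 < ps a b (hd h))

theorem inv_step (hD : WF D) (ha : Pot D a) (hb : Pot D b) {s : ℕ} {p q : ℕ × ℕ}
    (h : Inv D a b s p) (hm : Mv D a b p q) : Inv D a b s q := by
  obtain ⟨P, Q, hP, hPt, hQ, hQt, hc, hPl, hQl⟩ := h
  obtain ⟨q1, q2⟩ := q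
  have hrev : ∀ g h, g ∈ D → h ∈ D → conf g h → ps a b (tl g) = ps a b (hd h) := by
    intro g h h1 h2 h3
    rw [hD.rev g h1 h h2 h3]
  have hrev' : ∀ g h, g ∈ D → h ∈ D → conf g h → ps a b (hd g) = ps a b (tl h) := by
    intro g h h1 h2 h3
    rw [hD.rev h h2 g h1 (conf_comm.1 h3)]
  rcases hm with ⟨hlt, h2, e, he, ⟨R, hR, hR0⟩, h1⟩ | ⟨hlt, h1, f, hf, ⟨R, hR, hR0⟩, h2⟩ |
    ⟨heq, e, he, f, hf, hef, ⟨R1, R2, hR1, hR10, hR2, hR20, hcc⟩, h1, h2⟩
  · simp only at h1 h2 hlt
    subst h1 h2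
    obtain ⟨h3, h4⟩ := ps_walk0 hR hR0
    have h5 := ps_tp hb he
    refine ⟨P ++ (R ++ [e]), Q, hP.append (wk_mid.2 ⟨hR, rfl⟩), ?_, hQ, hQt, ?_, ?_, ?_⟩
    · intro g hg
      rw [List.mem_append, List.mem_append, List.mem_singleton] at hg
      rcases hg with hg | hg | rfl
      · exact hPt g hg
      · exact ⟨(hR0 g hg).1, (hR0 g hg).2.1⟩
      · exact ⟨he.1, he.2.1⟩
    · intro g hg h hh hgh
      rw [List.mem_append, List.mem_append, List.mem_singleton] at hg
      have h6 := (hQl h hh).1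
      rcases hg with hg | hg | rfl
      · exact hc g hg h hh hgh
      · have h7 := hrev g h (hR0 g hg).1 (hQt h hh).1 hgh
        have h8 := (h4 g hg).1
        omega
      · have h7 := hrev g h he.1 (hQt h hh).1 hgh
        omega
    · intro g hg
      simp only
      rw [List.mem_append, List.mem_append, List.mem_singleton] at hg
      rcases hg with hg | hg | rfl
      · have := hPl g hg
        omega
      · have h8 := (h4 g hg).1
        omega
      · omega
    · intro h hh
      simp only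
      have := hQl h hh
      omega
  · simp only at h1 h2 hlt
    subst h1 h2
    obtain ⟨h3, h4⟩ := ps_walk0 hR hR0
    have h5 := ps_tq ha hf
    refine ⟨P, f :: (R ++ Q), hP, hPt, ⟨rfl, hR.append hQ⟩, ?_, ?_, ?_, ?_⟩
    · intro g hg
      rw [List.mem_cons, List.mem_append] at hg
      rcases hg with rfl | hg | hg
      · exact ⟨hf.1, hf.2.1⟩
      · exact ⟨(hR0 g hg).1, (hR0 g hg).2.2⟩
      · exact hQt g hg
    · intro g hg h hh hgh
      rw [List.mem_cons, List.mem_append] at hh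
      have h6 := (hPl g hg).2
      rcases hh with rfl | hh | hh
      · have h7 := hrev g h (hPt g hg).1 hf.1 hgh
        omega
      · have h7 := hrev g h (hPt g hg).1 (hR0 h hh).1 hgh
        have h8 := (h4 h hh).2
        omega
      · exact hc g hg h hh hgh
    · intro g hg
      simp only
      have := hPl g hg
      omega
    · intro h hh
      simp only
      rw [List.mem_cons, List.mem_append] at hh
      rcases hh with rfl | hh | hh
      · omega
      · have h8 := (h4 h hh).2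
        omega
      · have := hQl h hh
        omega
  · simp only at h1 h2
    subst h1 h2
    obtain ⟨h3, h4⟩ := ps_walk0 hR1 hR10
    obtain ⟨h3', h4'⟩ := ps_walk0 hR2 hR20
    have h5 := ps_tp hb he
    have h5' := ps_tq ha hf
    refine ⟨P ++ (R1 ++ [e]), f :: (R2 ++ Q), hP.append (wk_mid.2 ⟨hR1, rfl⟩), ?_,
      ⟨rfl, hR2.append hQ⟩, ?_, ?_, ?_, ?_⟩
    · intro g hg
      rw [List.mem_append, List.mem_append, List.mem_singleton] at hg
      rcases hg with hg | hg | rfl
      · exact hPt g hg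
      · exact ⟨(hR10 g hg).1, (hR10 g hg).2.1⟩
      · exact ⟨he.1, he.2.1⟩
    · intro g hg
      rw [List.mem_cons, List.mem_append] at hg
      rcases hg with rfl | hg | hg
      · exact ⟨hf.1, hf.2.1⟩
      · exact ⟨(hR20 g hg).1, (hR20 g hg).2.2⟩
      · exact hQt g hg
    · intro g hg h hh hgh
      rw [List.mem_append, List.mem_append, List.mem_singleton] at hg
      rw [List.mem_cons, List.mem_append] at hh
      rcases hg with hg | hg | rfl
      · have h6 := hPl g hg
        rcases hh with rfl | hh | hh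
        · have h7 := hrev g h (hPt g hg).1 hf.1 hgh
          omega
        · have h7 := hrev g h (hPt g hg).1 (hR20 h hh).1 hgh
          have h8 := (h4' h hh).2
          omega
        · exact hc g hg h hh hgh
      · have h8 := h4 g hg
        rcases hh with rfl | hh | hh
        · have h7 := hrev' g h (hR10 g hg).1 hf.1 hgh
          omega
        · exact hcc g hg h hh hgh
        · have h7 := hrev g h (hR10 g hg).1 (hQt h hh).1 hgh
          have := hQl h hh
          omega
      · rcases hh with rfl | hh | hh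
        · exact hef hgh
        · have h7 := hrev' g h he.1 (hR20 h hh).1 hgh
          have h8 := (h4' h hh).1
          omega
        · have h7 := hrev g h he.1 (hQt h hh).1 hgh
          have := hQl h hh
          omega
    · intro g hg
      simp only
      rw [List.mem_append, List.mem_append, List.mem_singleton] at hg
      rcases hg with hg | hg | rfl
      · have := hPl g hg
        omega
      · have h8 := (h4 g hg).1
        omega
      · omega
    · intro h hh
      simp only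
      rw [List.mem_cons, List.mem_append] at hh
      rcases hh with rfl | hh | hh
      · omega
      · have h8 := (h4' h hh).2
        omega
      · have := hQl h hh
        omega

theorem inv_all (hD : WF D) (ha : Pot D a) (hb : Pot D b) {s : ℕ} {p : ℕ × ℕ}
    (h : Relation.ReflTransGen (Mv D a b) (s, s) p) : Inv D a b s p := by
  induction h with
  | refl => exact ⟨[], [], rfl, by simp, rfl, by simp, by simp, by simp, by simp⟩
  | tail _ hm ih => exact inv_step hD ha hb ih hm

theorem two_of_moves (hD : WF D) (ha : Pot D a) (hb : Pot D b) {s t : ℕ} {p : ℕ × ℕ}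
    (h : Relation.ReflTransGen (Mv D a b) (s, s) p) (h1 : ps a b p.1 = ps a b t)
    (h2 : ps a b p.2 = ps a b t) (hn : NN (D0 D a b) p.1 t t p.2) : TwoW D a b s t := by
  obtain ⟨P, Q, hP, hPt, hQ, hQt, hc, hPl, hQl⟩ := inv_all hD ha hb h
  obtain ⟨R1, R2, hR1, hR10, hR2, hR20, hcc⟩ := hn
  obtain ⟨h3, h4⟩ := ps_walk0 hR1 hR10
  obtain ⟨h3', h4'⟩ := ps_walk0 hR2 hR20
  refine ⟨P ++ R1, R2 ++ Q, hP.append hR1, ?_, hR2.append hQ, ?_, ?_⟩
  · intro g hg
    rw [List.mem_append] at hg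
    rcases hg with hg | hg
    · exact hPt g hg
    · exact ⟨(hR10 g hg).1, (hR10 g hg).2.1⟩
  · intro g hg
    rw [List.mem_append] at hg
    rcases hg with hg | hg
    · exact ⟨(hR20 g hg).1, (hR20 g hg).2.2⟩
    · exact hQt g hg
  · intro g hg h hh hgh
    rw [List.mem_append] at hg hh
    rcases hg with hg | hg
    · rcases hh with hh | hh
      · have h5 := hPl g hg
        have h6 := h4' h hh
        have h7 : ps a b (tl g) = ps a b (hd h) := by
          rw [hD.rev g (hPt g hg).1 h (hR20 h hh).1 hgh]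
        omega
      · exact hc g hg h hh hgh
    · rcases hh with hh | hh
      · exact hcc g hg h hh hgh
      · have h5 := hQl h hh
        have h6 := h4 g hg
        have h7 : ps a b (tl g) = ps a b (hd h) := by
          rw [hD.rev g (hR10 g hg).1 h (hQt h hh).1 hgh]
        omega

theorem first_not {p : Arc → Prop} (l : List Arc) : (∀ g ∈ l, p g) ∨
    ∃ l1 e l2, l = l1 ++ e :: l2 ∧ (∀ g ∈ l1, p g) ∧ ¬ p e := by
  induction l with
  | nil => left; simp
  | cons g l ih =>
    by_cases hg : p g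
    · rcases ih with h | ⟨l1, e, l2, rfl, h1, h2⟩
      · left
        intro c hc
        rcases List.mem_cons.1 hc with rfl | hc
        · exact hg
        · exact h c hc
      · right
        refine ⟨g :: l1, e, l2, rfl, ?_, h2⟩
        intro c hc
        rcases List.mem_cons.1 hc with rfl | hc
        · exact hg
        · exact h1 c hc
    · right
      exact ⟨[], g, l, rfl, by simp, hg⟩

theorem last_not {p : Arc → Prop} (l : List Arc) : (∀ g ∈ l, p g) ∨
    ∃ l1 e l2, l = l1 ++ e :: l2 ∧ (∀ g ∈ l2, p g) ∧ ¬ p e := by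
  rcases first_not (p := p) l.reverse with h | ⟨l1, e, l2, h0, h1, h2⟩
  · left
    intro g hg
    exact h g (List.mem_reverse.2 hg)
  · right
    refine ⟨l2.reverse, e, l1.reverse, ?_, fun g hg => h1 g (List.mem_reverse.1 hg), h2⟩
    rw [← List.reverse_reverse l, h0]
    simp

theorem moves_of_rest (ha : Pot D a) (hb : Pot D b) {t : ℕ} : ∀ (n : ℕ) (p : ℕ × ℕ)
    (P Q : List Arc), P.length + Q.length = n → Wk p.1 P t → (∀ g ∈ P, g ∈ D ∧ Tg a g) →
    Wk t Q p.2 → (∀ g ∈ Q, g ∈ D ∧ Tg b g) → (∀ g ∈ P, ∀ h ∈ Q, ¬ conf g h) →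
    ∃ q, Relation.ReflTransGen (Mv D a b) p q ∧ ps a b q.1 = ps a b t ∧
      ps a b q.2 = ps a b t ∧ NN (D0 D a b) q.1 t t q.2 := by
  intro n
  induction n using Nat.strong_induction_on with
  | _ n ih =>
    rintro ⟨x, y⟩ P Q hn hP hPt hQ hQt hc
    simp only at hP hQ
    have lP := ps_walkA hb hP hPt
    have lQ := ps_walkB ha hQ hQt
    have sP := first_not (p := fun g => g ∈ D0 D a b) P
    have sQ := last_not (p := fun g => g ∈ D0 D a b) Q
    -- the strict arc of `P`
    have hPs : ps a b t < ps a b x → ∃ l1 e l2, P = l1 ++ e :: l2 ∧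
        (∀ g ∈ l1, g ∈ D0 D a b) ∧ e ∈ TP D a b := by
      intro hlt
      rcases sP with h | ⟨l1, e, l2, h0, h1, h2⟩
      · have := (ps_walk0 hP h).1
        omega
      · refine ⟨l1, e, l2, h0, h1, ?_⟩
        obtain ⟨h3, h4⟩ := hPt e (by rw [h0]; simp)
        exact ⟨h3, h4, fun h5 => h2 ⟨h3, h4, h5⟩⟩
    have hQs : ps a b t < ps a b y → ∃ l1 f l2, Q = l1 ++ f :: l2 ∧
        (∀ g ∈ l2, g ∈ D0 D a b) ∧ f ∈ TQ D a b := by
      intro hlt
      rcases sQ with h | ⟨l1, e, l2, h0, h1, h2⟩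
      · have := (ps_walk0 hQ h).1
        omega
      · refine ⟨l1, e, l2, h0, h1, ?_⟩
        obtain ⟨h3, h4⟩ := hQt e (by rw [h0]; simp)
        exact ⟨h3, h4, fun h5 => h2 ⟨h3, h5, h4⟩⟩
    rcases lt_trichotomy (ps a b x) (ps a b y) with hlt | heq | hlt
    · obtain ⟨l1, f, l2, rfl, h1, h2⟩ := hQs (by omega)
      rw [wk_mid] at hQ
      obtain ⟨q, h3, h4⟩ := ih (P.length + l1.length) (by
        rw [← hn]; simp only [List.length_append, List.length_cons]; omega) (x, tl f) P l1 rfl hP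
        hPt hQ.1 (fun g hg => hQt g (by simp [hg])) (fun g hg h hh => hc g hg h (by simp [hh]))
      refine ⟨q, Relation.ReflTransGen.head ?_ h3, h4⟩
      exact Or.inr (Or.inl ⟨hlt, rfl, f, h2, ⟨l2, hQ.2, h1⟩, rfl⟩)
    · rcases lt_or_ge (ps a b t) (ps a b x) with h | h
      · obtain ⟨l1, e, l2, rfl, h1, h2⟩ := hPs h
        obtain ⟨m1, f, m2, rfl, h1', h2'⟩ := hQs (by omega)
        rw [wk_mid] at hQ hP
        obtain ⟨q, h3, h4⟩ := ih (l2.length + m1.length) (by
          rw [← hn]; simp only [List.length_append, List.length_cons]; omega) (hd e, tl f) l2 m1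
          rfl hP.2 (fun g hg => hPt g (by simp [hg])) hQ.1 (fun g hg => hQt g (by simp [hg]))
          (fun g hg h hh => hc g (by simp [hg]) h (by simp [hh]))
        refine ⟨q, Relation.ReflTransGen.head ?_ h3, h4⟩
        exact Or.inr (Or.inr ⟨heq, e, h2, f, h2', hc e (by simp) f (by simp),
          ⟨l1, m2, hP.1, h1, hQ.2, h1', fun g hg h hh => hc g (by simp [hg]) h (by simp [hh])⟩,
          rfl, rfl⟩)
      · have e1 : ps a b x = ps a b t := by omega
        have e2 : ps a b y = ps a b t := by omega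
        refine ⟨(x, y), Relation.ReflTransGen.refl, e1, e2, P, Q, hP, ?_, hQ, ?_, hc⟩
        · rcases sP with h' | ⟨l1, e, l2, rfl, h1, h2⟩
          · exact h'
          · exfalso
            rw [wk_mid] at hP
            obtain ⟨h3, h4⟩ := hPt e (by simp)
            have h5 := ps_tp hb (g := e) ⟨h3, h4, fun h5 => h2 ⟨h3, h4, h5⟩⟩
            have h6 := ps_walkA hb hP.2 (fun g hg => hPt g (by simp [hg]))
            have h7 := ps_walkA hb hP.1 (fun g hg => hPt g (by simp [hg]))
            omega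
        · rcases sQ with h' | ⟨l1, e, l2, rfl, h1, h2⟩
          · exact h'
          · exfalso
            rw [wk_mid] at hQ
            obtain ⟨h3, h4⟩ := hQt e (by simp)
            have h5 := ps_tq ha (g := e) ⟨h3, h4, fun h5 => h2 ⟨h3, h5, h4⟩⟩
            have h6 := ps_walkB ha hQ.2 (fun g hg => hQt g (by simp [hg]))
            have h7 := ps_walkB ha hQ.1 (fun g hg => hQt g (by simp [hg]))
            omega
    · obtain ⟨l1, e, l2, rfl, h1, h2⟩ := hPs (by omega)
      rw [wk_mid] at hP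
      obtain ⟨q, h3, h4⟩ := ih (l2.length + Q.length) (by
        rw [← hn]; simp only [List.length_append, List.length_cons]; omega) (hd e, y) l2 Q rfl
        hP.2 (fun g hg => hPt g (by simp [hg])) hQ hQt
        (fun g hg h hh => hc g (by simp [hg]) h hh)
      refine ⟨q, Relation.ReflTransGen.head ?_ h3, h4⟩
      exact Or.inl ⟨hlt, rfl, e, h2, ⟨l1, hP.1, h1⟩, rfl⟩

/-- **Two tight walks and the pair graph.** -/
theorem two_iff (hD : WF D) (ha : Pot D a) (hb : Pot D b) {s t : ℕ} : TwoW D a b s t ↔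
    ∃ p, Relation.ReflTransGen (Mv D a b) (s, s) p ∧ ps a b p.1 = ps a b t ∧
      ps a b p.2 = ps a b t ∧ NN (D0 D a b) p.1 t t p.2 := by
  constructor
  · rintro ⟨P, Q, hP, hPt, hQ, hQt, hc⟩
    exact moves_of_rest ha hb _ (s, s) P Q rfl hP hPt hQ hQt hc
  · rintro ⟨p, h, h1, h2, h3⟩
    exact two_of_moves hD ha hb h h1 h2 h3

/-! ### shortest walks are the tight walks -/

theorem tel (ha : Pot D a) {l : List Arc} {x y : ℕ} (h : Wk x l y) (hl : ∀ g ∈ l, g ∈ D) :
    a y ≤ a x + wl l ∧ (a y = a x + wl l → ∀ g ∈ l, Tg a g) := by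
  induction l generalizing x with
  | nil => simp only [Wk] at h; subst h; simp [wl]
  | cons g l ih =>
    obtain ⟨h1, h2⟩ := h
    obtain ⟨h3, h4⟩ := ih h2 (fun c hc => hl c (List.mem_cons_of_mem _ hc))
    have h5 := ha g (hl g List.mem_cons_self)
    subst h1
    rw [wl_cons]
    push_cast
    refine ⟨by omega, fun h6 c hc => ?_⟩
    rcases List.mem_cons.1 hc with rfl | hc
    · unfold Tg; omega
    · exact h4 (by omega) c hc

theorem tel_tight {l : List Arc} {x y : ℕ} (h : Wk x l y) (hl : ∀ g ∈ l, Tg a g) :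
    a y = a x + wl l := by
  induction l generalizing x with
  | nil => simp only [Wk] at h; subst h; simp [wl]
  | cons g l ih =>
    obtain ⟨h1, h2⟩ := h
    have h3 := ih h2 (fun c hc => hl c (List.mem_cons_of_mem _ hc))
    have h5 := hl g List.mem_cons_self
    subst h1
    unfold Tg at h5
    rw [wl_cons]
    push_cast
    omega

end

end Q224.OM
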