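import Pool.Agent.H671R2.PolyAuto
import Pool.Agent.NPC.Dec
import Pool.Agent.Q224.OM.Main

/-!
# The test runs in polynomial time
-/

set_option autoImplicit false

namespace Pool.Agent.NPC.Q224OM

open _root_.Q224.OM

variable {α : Type} [TEnc α]

@[fun_prop]
theorem p_tl {a : α → Arc} (ha : Poly a) : Poly (fun x => tl (a x)) := by
  unfold tl; fun_prop

@[fun_prop]
theorem p_hd {a : α → Arc} (ha : Poly a) : Poly (fun x => hd (a x)) := by
  unfold hd; fun_prop

@[fun_prop]
theorem p_wt {a : α → Arc} (ha : Poly a) : Poly (fun x => wt (a x)) := by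
  unfold wt; fun_prop

@[fun_prop]
theorem p_mins {l : α → List ℕ} (hl : Poly l) : Poly (fun x => mins (l x)) := by
  unfold mins
  exact Poly.optElim (h := fun _ c => [c]) (by fun_prop) (Poly.const []) (by fun_prop)

@[fun_prop]
theorem p_cands {D : α → List Arc} {T : α → List (ℕ × ℕ)} {v : α → ℕ} (hD : Poly D) (hT : Poly T)
    (hv : Poly v) : Poly (fun x => cands (D x) (T x) (v x)) := by
  unfold cands
  fun_prop

@[fun_prop]
theorem p_relax {D : α → List Arc} {V : α → List ℕ} {T : α → List (ℕ × ℕ)} (hD : Poly D)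
    (hV : Poly V) (hT : Poly T) : Poly (fun x => relax (D x) (V x) (T x)) := by
  unfold relax
  fun_prop

theorem relax_length (D : List Arc) (V : List ℕ) (T : List (ℕ × ℕ)) :
    (relax D V T).length ≤ V.length := by
  unfold relax
  induction V with
  | nil => simp
  | cons v V ih =>
    rw [List.flatMap_cons, List.length_append, List.length_cons]
    have : ((mins (cands D T v)).map (fun c => (v, c))).length ≤ 1 := by
      rw [List.length_map]
      unfold mins
      rcases ((cands D T v).filter (fun c => (cands D T v).all (fun d => decide (c ≤ d)))).head?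
        with _ | d <;> simp
    omega

@[fun_prop]
theorem p_bf {D : α → List Arc} {x : α → ℕ} (hD : Poly D) (hx : Poly x) :
    Poly (fun a => bf (D a) (x a)) := by
  unfold bf
  have hV : Poly (fun a => x a :: (D a).map hd) := by fun_prop
  have hB : Poly (fun a => (D a).length * ((D a).map wt).sum) := by fun_prop
  obtain ⟨p, hp⟩ := hV.sz_le
  obtain ⟨q, hq⟩ := hB.sz_le
  refine Poly.foldl (F := fun a T _ => relax (D a) (x a :: (D a).map hd) T) hD (by fun_prop) ?_
    (p * (p + 2 * q + 1) + 1) ?_
  · fun_prop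
  · intro a m hm
    rw [foldl_iter' (relax (D a) (x a :: (D a).map hd))]
    set k := ((D a).take m).length with hk
    have hkm : k ≤ (D a).length := by rw [hk]; simp
    have hlen : ((relax (D a) (x a :: (D a).map hd))^[k] [(x a, 0)]).length ≤
        (x a :: (D a).map hd).length := by
      rcases Nat.eq_zero_or_pos k with h | h
      · rw [h]; simp
      · obtain ⟨j, hj⟩ : ∃ j, k = j + 1 := ⟨k - 1, by omega⟩
        rw [hj, Function.iterate_succ_apply']
        exact relax_length _ _ _
    have hs := sz_le_length_mul ((relax (D a) (x a :: (D a).map hd))^[k] [(x a, 0)])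
      (sz (x a :: (D a).map hd) + 2 * sz ((D a).length * ((D a).map wt).sum)) (by
        rintro ⟨v, c⟩ hvc
        obtain ⟨h1, h2⟩ := iter_bd (D a) (x a) k hvc
        have e1 : sz v < sz (x a :: (D a).map hd) := sz_le_of_mem h1
        have e2 : sz c ≤ 2 * sz ((D a).length * ((D a).map wt).sum) :=
          sz_nat_mono_le (h2.trans (Nat.mul_le_mul_right _ hkm))
        rw [sz_pair]
        omega)
    refine hs.trans ?_
    have e1 := length_lt_sz (x a :: (D a).map hd)
    have e2 := hp a
    have e3 := hq a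
    simp only [Polynomial.eval_add, Polynomial.eval_mul, Polynomial.eval_one,
      Polynomial.eval_ofNat]
    exact Nat.add_le_add_right (Nat.mul_le_mul (by omega) (by omega)) 1

@[fun_prop]
theorem p_reach {D : α → List Arc} {x y : α → ℕ} (hD : Poly D) (hx : Poly x) (hy : Poly y) :
    Poly (fun a => reach (D a) (x a) (y a)) := by
  unfold reach
  fun_prop

@[fun_prop]
theorem p_av {T : α → List (ℕ × ℕ)} {v : α → ℕ} (hT : Poly T) (hv : Poly v) :
    Poly (fun a => av (T a) (v a)) := by
  unfold av
  fun_prop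

@[fun_prop]
theorem p_dr {D : α → List Arc} {T : α → List (ℕ × ℕ)} (hD : Poly D) (hT : Poly T) :
    Poly (fun a => dr (D a) (T a)) := by
  unfold dr
  fun_prop

@[fun_prop]
theorem p_tgB {T : α → List (ℕ × ℕ)} {g : α → Arc} (hT : Poly T) (hg : Poly g) :
    Poly (fun a => tgB (T a) (g a)) := by
  unfold tgB
  fun_prop

@[fun_prop]
theorem p_l0 {D : α → List Arc} {S T : α → List (ℕ × ℕ)} (hD : Poly D) (hS : Poly S)
    (hT : Poly T) : Poly (fun a => l0 (D a) (S a) (T a)) := by
  unfold l0
  fun_prop

@[fun_prop]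
theorem p_lp {D : α → List Arc} {S T : α → List (ℕ × ℕ)} (hD : Poly D) (hS : Poly S)
    (hT : Poly T) : Poly (fun a => _root_.Q224.OM.lp (D a) (S a) (T a)) := by
  unfold _root_.Q224.OM.lp
  fun_prop

@[fun_prop]
theorem p_cfB {g h : α → Arc} (hg : Poly g) (hh : Poly h) : Poly (fun a => cfB (g a) (h a)) := by
  unfold cfB
  fun_prop

@[fun_prop]
theorem p_nnB {E : α → List Arc} {x y z w : α → ℕ} (hE : Poly E) (hx : Poly x) (hy : Poly y)
    (hz : Poly z) (hw : Poly w) : Poly (fun a => nnB (E a) (x a) (y a) (z a) (w a)) := by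
  unfold nnB
  fun_prop

@[fun_prop]
theorem p_ltB {S T : α → List (ℕ × ℕ)} {x y : α → ℕ} (hS : Poly S) (hT : Poly T) (hx : Poly x)
    (hy : Poly y) : Poly (fun a => ltB (S a) (T a) (x a) (y a)) := by
  unfold ltB
  fun_prop

@[fun_prop]
theorem p_mk {x y z w : α → ℕ} (hx : Poly x) (hy : Poly y) (hz : Poly z) (hw : Poly w) :
    Poly (fun a => mk (x a) (y a) (z a) (w a)) := by
  unfold mk Nat.pair
  fun_prop

@[fun_prop]
theorem p_mvs {S T : α → List (ℕ × ℕ)} {E P Q : α → List Arc} {x y : α → ℕ} (hS : Poly S)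
    (hT : Poly T) (hE : Poly E) (hP : Poly P) (hQ : Poly Q) (hx : Poly x) (hy : Poly y) :
    Poly (fun a => mvs (S a) (T a) (E a) (P a) (Q a) (x a) (y a)) := by
  unfold mvs
  fun_prop

@[fun_prop]
theorem p_moves {V : α → List ℕ} {S T : α → List (ℕ × ℕ)} {E P Q : α → List Arc} (hV : Poly V)
    (hS : Poly S) (hT : Poly T) (hE : Poly E) (hP : Poly P) (hQ : Poly Q) :
    Poly (fun a => moves (V a) (S a) (T a) (E a) (P a) (Q a)) := by
  unfold moves
  fun_prop

@[fun_prop]
theorem p_accept {V : α → List ℕ} {S T : α → List (ℕ × ℕ)} {E P Q : α → List Arc} {s t : α → ℕ}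
    (hV : Poly V) (hS : Poly S) (hT : Poly T) (hE : Poly E) (hP : Poly P) (hQ : Poly Q)
    (hs : Poly s) (ht : Poly t) :
    Poly (fun a => accept (V a) (S a) (T a) (E a) (P a) (Q a) (s a) (t a)) := by
  unfold accept Nat.pair
  fun_prop

@[fun_prop]
theorem p_test {D : α → List Arc} {s t : α → ℕ} (hD : Poly D) (hs : Poly s) (ht : Poly t) :
    Poly (fun a => test (D a) (s a) (t a)) := by
  unfold test
  fun_prop

theorem den_lt (l : List (ℕ × ℕ × ℕ × ℕ)) : ∀ n a : ℕ, n < 2 ^ a →
    l.foldl (fun n e => n * e.2.2.2) n < 2 ^ (a + sz l) := by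
  induction l with
  | nil =>
    intro n a h
    exact h.trans_le (Nat.pow_le_pow_right (by norm_num) (Nat.le_add_right _ _))
  | cons e l ih =>
    intro n a h
    rw [List.foldl_cons]
    have h1 : n * e.2.2.2 < 2 ^ (a + e.2.2.2.size) := by
      rw [pow_add]
      exact Nat.mul_lt_mul'' h (Nat.lt_size_self _)
    refine (ih _ _ h1).trans_le (Nat.pow_le_pow_right (by norm_num) ?_)
    have h2 := size_le_sz e.2.2.2
    obtain ⟨e1, e2, e3, e4⟩ := e
    simp only at h2 ⊢
    rw [sz_list_cons, sz_pair, sz_pair, sz_pair]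
    omega

theorem sz_take_le'' {β : Type} [TEnc β] (l : List β) (k : ℕ) : sz (l.take k) ≤ sz l := by
  induction l generalizing k with
  | nil => simp
  | cons b l ih =>
    cases k with
    | zero => simp
    | succ k =>
      have := ih k
      rw [List.take_succ_cons, sz_list_cons, sz_list_cons]; omega

@[fun_prop]
theorem p_den {g : α → MG} (hg : Poly g) : Poly (fun a => den (g a)) := by
  unfold den
  have hl : Poly (fun a => (g a).1 ++ (g a).2) := by fun_prop
  obtain ⟨p, hp⟩ := hl.sz_le
  refine Poly.foldl (F := fun _ n e => n * e.2.2.2) hl (Poly.const 1) (by fun_prop)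
    (4 * (p + 1) + 1) ?_
  intro a k _
  have h1 := den_lt (((g a).1 ++ (g a).2).take k) 1 1 (by norm_num)
  have h2 := sz_take_le'' ((g a).1 ++ (g a).2) k
  have h3 := Nat.size_le.2 h1
  have h4 := sz_nat_le ((((g a).1 ++ (g a).2).take k).foldl (fun n e => n * e.2.2.2) 1)
  have h5 := hp a
  simp only [Polynomial.eval_add, Polynomial.eval_mul, Polynomial.eval_one,
    Polynomial.eval_ofNat]
  omega

@[fun_prop]
theorem p_sw {N : α → ℕ} {e : α → ℕ × ℕ × ℕ × ℕ} (hN : Poly N) (he : Poly e) :
    Poly (fun a => sw (N a) (e a)) := by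
  unfold sw
  fun_prop

@[fun_prop]
theorem p_ix {β : Type} [TEnc β] {l : α → List β} (hl : Poly l) : Poly (fun a => ix (l a)) :=
  Poly.range_length hl

@[fun_prop]
theorem p_lab {g : α → MG} (hg : Poly g) : Poly (fun a => lab (g a)) := by
  unfold lab
  fun_prop

theorem p_full : Poly full := by
  unfold full
  fun_prop

/-- **The problem is in P.** -/
theorem inPP : InPP Preserving := inPP_of p_full (fun x => (full_iff x).symm)

end Pool.Agent.NPC.Q224OM
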