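import Mathlib

/-!
# Walks with labelled arcs, and two walks which use no edge in opposite directions
-/

set_option autoImplicit false

namespace Q224.OM

/-- Labelled arcs: (number of the edge, direction), tail, head, length. -/
abbrev Arc := (ℕ × Bool) × ℕ × ℕ × ℕ

/-- The tail. -/
def tl (a : Arc) : ℕ := a.2.1

/-- The head. -/
def hd (a : Arc) : ℕ := a.2.2.1

/-- The length. -/
def wt (a : Arc) : ℕ := a.2.2.2

/-- The list of arcs is a walk. -/
def Wk : ℕ → List Arc → ℕ → Prop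
  | x, [], y => x = y
  | x, a :: l, y => tl a = x ∧ Wk (hd a) l y

/-- The two arcs are the two directions of the same edge. -/
def conf (a b : Arc) : Prop := a.1.1 = b.1.1 ∧ a.1.2 ≠ b.1.2

instance (a b : Arc) : Decidable (conf a b) := inferInstanceAs (Decidable (_ ∧ _))

theorem conf_comm {a b : Arc} : conf a b ↔ conf b a :=
  ⟨fun h => ⟨h.1.symm, h.2.symm⟩, fun h => ⟨h.1.symm, h.2.symm⟩⟩

/-- The length of a walk. -/
def wl (l : List Arc) : ℕ := (l.map wt).sum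

theorem wl_append (l m : List Arc) : wl (l ++ m) = wl l + wl m := by
  unfold wl; simp

theorem wl_cons (a : Arc) (m : List Arc) : wl (a :: m) = wt a + wl m := by
  unfold wl; simp

theorem wk_append {l m : List Arc} {x z : ℕ} : Wk x (l ++ m) z ↔ ∃ y, Wk x l y ∧ Wk y m z := by
  induction l generalizing x with
  | nil => simp [Wk]
  | cons a l ih =>
    simp only [List.cons_append, Wk, ih]
    constructor
    · rintro ⟨h, y, h1, h2⟩; exact ⟨y, ⟨h, h1⟩, h2⟩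
    · rintro ⟨y, ⟨h, h1⟩, h2⟩; exact ⟨h, y, h1, h2⟩

theorem Wk.append {l m : List Arc} {x y z : ℕ} (h : Wk x l y) (h' : Wk y m z) :
    Wk x (l ++ m) z := wk_append.2 ⟨y, h, h'⟩

theorem wk_mid {l m : List Arc} {a : Arc} {x z : ℕ} :
    Wk x (l ++ a :: m) z ↔ Wk x l (tl a) ∧ Wk (hd a) m z := by
  rw [wk_append]
  constructor
  · rintro ⟨y, h1, h2, h3⟩
    rw [h2]; exact ⟨h1, h3⟩
  · rintro ⟨h1, h2⟩
    exact ⟨_, h1, rfl, h2⟩

/-- Walks leave sets by arcs. -/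
theorem Wk.leave {S : Set ℕ} {l : List Arc} {x y : ℕ} (h : Wk x l y) (hx : x ∈ S) (hy : y ∉ S) :
    ∃ g ∈ l, tl g ∈ S ∧ hd g ∉ S := by
  induction l generalizing x with
  | nil =>
    simp only [Wk] at h
    exact absurd (h ▸ hx) hy
  | cons a l ih =>
    obtain ⟨h1, h2⟩ := h
    by_cases ha : hd a ∈ S
    · obtain ⟨g, hg, h3⟩ := ih h2 ha
      exact ⟨g, List.mem_cons_of_mem _ hg, h3⟩
    · exact ⟨a, List.mem_cons_self, h1 ▸ hx, ha⟩

theorem split2 {l : List Arc} {a b : Arc} (ha : a ∈ l) (hb : b ∈ l) (hab : a ≠ b) :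
    (∃ l1 l2 l3, l = l1 ++ a :: (l2 ++ b :: l3)) ∨ ∃ l1 l2 l3, l = l1 ++ b :: (l2 ++ a :: l3) := by
  obtain ⟨l1, l2, rfl⟩ := List.append_of_mem ha
  rw [List.mem_append, List.mem_cons] at hb
  rcases hb with h | h | h
  · obtain ⟨l3, l4, rfl⟩ := List.append_of_mem h
    right
    exact ⟨l3, l4, l2, by simp⟩
  · exact absurd h.symm hab
  · obtain ⟨l3, l4, rfl⟩ := List.append_of_mem h
    left
    exact ⟨l1, l3, l4, rfl⟩

theorem dup_split {l : List Arc} (h : ¬ l.Nodup) :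
    ∃ a l1 l2 l3, l = l1 ++ a :: (l2 ++ a :: l3) := by
  induction l with
  | nil => simp at h
  | cons b l ih =>
    rw [List.nodup_cons, not_and_or, not_not] at h
    rcases h with h | h
    · obtain ⟨l1, l2, rfl⟩ := List.append_of_mem h
      exact ⟨b, [], l1, l2, rfl⟩
    · obtain ⟨a, l1, l2, l3, rfl⟩ := ih h
      exact ⟨a, b :: l1, l2, l3, rfl⟩

/-- Sets of labelled arcs: the labels determine the arcs, opposite arcs have exchanged ends. -/
structure WF (D : Set Arc) : Prop where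
  uniq : ∀ a ∈ D, ∀ b ∈ D, a.1 = b.1 → a = b
  rev : ∀ a ∈ D, ∀ b ∈ D, conf a b → tl a = hd b

theorem WF.mono {D D' : Set Arc} (h : WF D) (hs : D' ⊆ D) : WF D' :=
  ⟨fun a ha b hb => h.uniq a (hs ha) b (hs hb), fun a ha b hb => h.rev a (hs ha) b (hs hb)⟩

/-- Walks can be made free of conflicts with themselves. -/
theorem simple {D : Set Arc} (hD : WF D) : ∀ (n : ℕ) (l : List Arc) (x y : ℕ), l.length = n →
    Wk x l y → (∀ a ∈ l, a ∈ D) → ∃ l', Wk x l' y ∧ (∀ a ∈ l', a ∈ l) ∧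
      (∀ a ∈ l', ∀ b ∈ l', ¬ conf a b) ∧ wl l' ≤ wl l := by
  intro n
  induction n using Nat.strong_induction_on with
  | _ n ih =>
    intro l x y hn hw hl
    by_cases hc : ∃ a ∈ l, ∃ b ∈ l, conf a b
    · obtain ⟨a, ha, b, hb, hab⟩ := hc
      have hne : a ≠ b := by rintro rfl; exact hab.2 rfl
      have key : ∀ a b, a ∈ l → b ∈ l → conf a b → (∃ l1 l2 l3, l = l1 ++ a :: (l2 ++ b :: l3)) →
          ∃ l', Wk x l' y ∧ (∀ a ∈ l', a ∈ l) ∧ (∀ a ∈ l', ∀ b ∈ l', ¬ conf a b) ∧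
            wl l' ≤ wl l := by
        rintro a b ha hb hab ⟨l1, l2, l3, rfl⟩
        rw [wk_mid, wk_mid] at hw
        have h1 : Wk x (l1 ++ l3) y := by
          refine hw.1.append ?_
          rw [hD.rev a (hl a ha) b (hl b hb) hab]
          exact hw.2.2
        have hsub : ∀ c ∈ l1 ++ l3, c ∈ l1 ++ a :: (l2 ++ b :: l3) := by
          intro c hc
          rw [List.mem_append] at hc
          rcases hc with hc | hc
          · exact List.mem_append_left _ hc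
          · simp [hc]
        obtain ⟨l', h2, h3, h4, h5⟩ := ih (l1 ++ l3).length (by
          rw [← hn]; simp only [List.length_append, List.length_cons]; omega) (l1 ++ l3) x y rfl h1
          (fun c hc => hl c (hsub c hc))
        refine ⟨l', h2, fun c hc => hsub c (h3 c hc), h4, h5.trans ?_⟩
        simp only [wl_append, wl_cons]
        omega
      rcases split2 ha hb hne with h | h
      · exact key a b ha hb hab h
      · exact key b a hb ha (conf_comm.1 hab) h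
    · push Not at hc
      exact ⟨l, hw, fun _ h => h, hc, le_rfl⟩

/-- Short walks. -/
theorem short {D : List Arc} : ∀ (n : ℕ) (l : List Arc) (x y : ℕ), l.length = n →
    Wk x l y → (∀ a ∈ l, a ∈ D) → ∃ l', Wk x l' y ∧ (∀ a ∈ l', a ∈ D) ∧
      l'.length ≤ D.length ∧ wl l' ≤ wl l := by
  intro n
  induction n using Nat.strong_induction_on with
  | _ n ih =>
    intro l x y hn hw hl
    by_cases hc : l.Nodup
    · exact ⟨l, hw, hl, (List.subperm_of_subset hc hl).length_le, le_rfl⟩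
    · obtain ⟨a, l1, l2, l3, rfl⟩ := dup_split hc
      rw [wk_mid, wk_mid] at hw
      have h1 : Wk x (l1 ++ a :: l3) y := wk_mid.2 ⟨hw.1, hw.2.2⟩
      obtain ⟨l', h2, h3, h4, h5⟩ := ih (l1 ++ a :: l3).length (by
          rw [← hn]; simp only [List.length_append, List.length_cons]; omega) _ x y rfl h1 (by
          intro c hc
          rw [List.mem_append, List.mem_cons] at hc
          refine hl c ?_
          rcases hc with hc | hc | hc <;> simp [hc])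
      refine ⟨l', h2, h3, h4, h5.trans ?_⟩
      simp only [wl_append, wl_cons]
      omega

/-- Reachability. -/
def Rch (D : Set Arc) (x y : ℕ) : Prop := ∃ l, Wk x l y ∧ ∀ a ∈ l, a ∈ D

theorem Rch.mono {D D' : Set Arc} {x y : ℕ} (h : Rch D x y) (hs : D ⊆ D') : Rch D' x y := by
  obtain ⟨l, h1, h2⟩ := h
  exact ⟨l, h1, fun a ha => hs (h2 a ha)⟩

theorem Rch.refl (D : Set Arc) (x : ℕ) : Rch D x x := ⟨[], rfl, by simp⟩

theorem Rch.tail {D : Set Arc} {x : ℕ} {a : Arc} (h : Rch D x (tl a)) (ha : a ∈ D) :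
    Rch D x (hd a) := by
  obtain ⟨l, h1, h2⟩ := h
  refine ⟨l ++ [a], wk_mid.2 ⟨h1, rfl⟩, ?_⟩
  intro b hb
  rw [List.mem_append, List.mem_singleton] at hb
  rcases hb with hb | rfl
  · exact h2 b hb
  · exact ha

/-- **The cut lemma.** -/
theorem cut {D : Set Arc} (hD : WF D) {W : List Arc} {α β : ℕ} (hW : Wk α W β)
    (hWD : ∀ a ∈ W, a ∈ D) (hs : ∀ a ∈ W, ∀ b ∈ W, ¬ conf a b) {S : Set ℕ}
    (hS : ∀ g ∈ D, tl g ∈ S → hd g ∉ S → ∃ r ∈ W, conf g r) {g1 g2 : Arc} (h1 : g1 ∈ D)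
    (h1t : tl g1 ∈ S) (h1h : hd g1 ∉ S) (h2 : g2 ∈ D) (h2t : tl g2 ∈ S) (h2h : hd g2 ∉ S) :
    g1 = g2 := by
  obtain ⟨r1, hr1, c1⟩ := hS g1 h1 h1t h1h
  obtain ⟨r2, hr2, c2⟩ := hS g2 h2 h2t h2h
  by_cases hr : r1 = r2
  · subst hr
    refine hD.uniq g1 h1 g2 h2 (Prod.ext (c1.1.trans c2.1.symm) ?_)
    have e1 := c1.2
    have e2 := c2.2
    revert e1 e2
    cases g1.1.2 <;> cases g2.1.2 <;> cases r1.1.2 <;> simp
  · exfalso
    have key : ∀ g1 g2 r1 r2 : Arc, g1 ∈ D → tl g1 ∈ S → hd g1 ∉ S → g2 ∈ D → tl g2 ∈ S →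
        hd g2 ∉ S → r1 ∈ W → r2 ∈ W → conf g1 r1 → conf g2 r2 →
        (∃ l1 l2 l3, W = l1 ++ r1 :: (l2 ++ r2 :: l3)) → False := by
      rintro g1 g2 r1 r2 h1 h1t h1h h2 h2t h2h hr1 hr2 c1 c2 ⟨l1, l2, l3, hW3⟩
      rw [hW3, wk_mid, wk_mid] at hW
      have e1 : hd r1 = tl g1 := (hD.rev g1 h1 r1 (hWD r1 hr1) c1).symm
      have e2 : tl r2 = hd g2 := hD.rev r2 (hWD r2 hr2) g2 h2 (conf_comm.1 c2)
      obtain ⟨g3, hg3, h3t, h3h⟩ := hW.2.1.leave (S := S) (by rw [e1]; exact h1t)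
        (by rw [e2]; exact h2h)
      have hg3W : g3 ∈ W := by rw [hW3]; simp [hg3]
      obtain ⟨r3, hr3, c3⟩ := hS g3 (hWD g3 hg3W) h3t h3h
      exact hs g3 hg3W r3 hr3 c3
    rcases split2 hr1 hr2 hr with h | h
    · exact key g1 g2 r1 r2 h1 h1t h1h h2 h2t h2h hr1 hr2 c1 c2 h
    · exact key g2 g1 r2 r1 h2 h2t h2h h1 h1t h1h hr2 hr1 c2 c1 h

/-- There are walks from `x1` to `x2` and from `y1` to `y2` in `D` without conflict. -/
def NN (D : Set Arc) (x1 x2 y1 y2 : ℕ) : Prop :=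
  ∃ P Q, Wk x1 P x2 ∧ (∀ a ∈ P, a ∈ D) ∧ Wk y1 Q y2 ∧ (∀ a ∈ Q, a ∈ D) ∧
    ∀ a ∈ P, ∀ b ∈ Q, ¬ conf a b

/-- **Two walks without conflict**: they exist iff no edge is needed in both directions. -/
theorem nn_iff {D : Set Arc} (hD : WF D) (x1 x2 y1 y2 : ℕ) : NN D x1 x2 y1 y2 ↔
    Rch D x1 x2 ∧ Rch D y1 y2 ∧ ∀ a ∈ D, ∀ b ∈ D, conf a b →
      Rch (D \ {a}) x1 x2 ∨ Rch (D \ {b}) y1 y2 := by
  constructor
  · rintro ⟨P, Q, hP, hPD, hQ, hQD, hc⟩
    refine ⟨⟨P, hP, hPD⟩, ⟨Q, hQ, hQD⟩, fun a ha b hb hab => ?_⟩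
    by_cases haP : a ∈ P
    · right
      refine ⟨Q, hQ, fun c hcQ => ⟨hQD c hcQ, ?_⟩⟩
      rintro rfl
      exact hc a haP c hcQ hab
    · left
      refine ⟨P, hP, fun c hcP => ⟨hPD c hcP, ?_⟩⟩
      rintro rfl
      exact haP hcP
  · rintro ⟨hx, hy, h⟩
    obtain ⟨P0, hP0, hP0D⟩ := hx
    obtain ⟨P, hP, hPs, hPc, _⟩ := simple hD _ P0 x1 x2 rfl hP0 hP0D
    have hPD : ∀ a ∈ P, a ∈ D := fun a ha => hP0D a (hPs a ha)
    -- the arcs whose reverse is needed from x1 to x2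
    let F : Set Arc := {b | ∃ a ∈ D, conf a b ∧ ¬ Rch (D \ {a}) x1 x2}
    have hF : ∀ b ∈ F, ∃ r ∈ P, conf b r := by
      rintro b ⟨a, ha, hab, hn⟩
      refine ⟨a, ?_, conf_comm.1 hab⟩
      by_contra hc
      exact hn ⟨P, hP, fun c hcP => ⟨hPD c hcP, by rintro rfl; exact hc hcP⟩⟩
    have hyF : Rch (D \ F) y1 y2 := by
      by_contra hc
      let S : Set ℕ := {v | Rch (D \ F) y1 v}
      have hS : ∀ g ∈ D, tl g ∈ S → hd g ∉ S → g ∈ F := by
        intro g hg h1 h2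
        by_contra hgF
        exact h2 (Rch.tail h1 ⟨hg, hgF⟩)
      obtain ⟨Q0, hQ0, hQ0D⟩ := hy
      obtain ⟨g, hg, hg1, hg2⟩ := hQ0.leave (S := S) (Rch.refl _ _) hc
      have hgF := hS g (hQ0D g hg) hg1 hg2
      obtain ⟨a, ha, hab, hn⟩ := hgF
      rcases h a ha g (hQ0D g hg) hab with h3 | h3
      · exact hn h3
      · obtain ⟨Q1, hQ1, hQ1D⟩ := h3
        obtain ⟨g', hg', hg'1, hg'2⟩ := hQ1.leave (S := S) (Rch.refl _ _) hc
        have := cut hD hP hPD hPc (S := S) (fun g hg h1 h2 => hF g (hS g hg h1 h2))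
          (hQ1D g' hg').1 hg'1 hg'2 (hQ0D g hg) hg1 hg2
        exact (hQ1D g' hg').2 this
    obtain ⟨Q0, hQ0, hQ0D⟩ := hyF
    obtain ⟨Q, hQ, hQs, hQc, _⟩ := simple hD _ Q0 y1 y2 rfl hQ0 (fun a ha => (hQ0D a ha).1)
    have hQD : ∀ a ∈ Q, a ∈ D \ F := fun a ha => hQ0D a (hQs a ha)
    let B : Set Arc := {a | ∃ r ∈ Q, conf a r}
    have hxB : Rch (D \ B) x1 x2 := by
      by_contra hc
      let S : Set ℕ := {v | Rch (D \ B) x1 v}
      have hS : ∀ g ∈ D, tl g ∈ S → hd g ∉ S → g ∈ B := by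
        intro g hg h1 h2
        by_contra hgB
        exact h2 (Rch.tail h1 ⟨hg, hgB⟩)
      obtain ⟨g, hg, hg1, hg2⟩ := hP.leave (S := S) (Rch.refl _ _) hc
      obtain ⟨r, hr, hgr⟩ := hS g (hPD g hg) hg1 hg2
      apply (hQD r hr).2
      refine ⟨g, hPD g hg, hgr, ?_⟩
      rintro ⟨P1, hP1, hP1D⟩
      obtain ⟨g', hg', hg'1, hg'2⟩ := hP1.leave (S := S) (Rch.refl _ _) hc
      have := cut hD hQ (fun a ha => (hQD a ha).1) hQc (S := S) hS
        (hP1D g' hg').1 hg'1 hg'2 (hPD g hg) hg1 hg2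
      exact (hP1D g' hg').2 this
    obtain ⟨P1, hP1, hP1D⟩ := hxB
    exact ⟨P1, Q, hP1, fun a ha => (hP1D a ha).1, hQ, fun a ha => (hQD a ha).1,
      fun a ha b hb hab => (hP1D a ha).2 ⟨b, hb, hab⟩⟩

end Q224.OM
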